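import Pool.Agent.Lib.MP_630b78_co.QO.Sc

/-!
# Partitions without the first column
-/

namespace EllHall

open MvPolynomial

/-- the rows of a partition given by its parts -/
noncomputable def rowOf (ρ : Multiset ℕ) (i : ℕ) : ℕ := (ρ.sort (· ≥ ·)).getD i 0

theorem rowOf_antitone (ρ : Multiset ℕ) : Antitone (rowOf ρ) := by
  intro i j hij
  unfold rowOf
  rcases Nat.lt_or_ge j (ρ.sort (· ≥ ·)).length with hj | hj
  · have hi : i < (ρ.sort (· ≥ ·)).length := lt_of_le_of_lt hij hj
    rw [List.getD_eq_getElem _ _ hj, List.getD_eq_getElem _ _ hi]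
    rcases Nat.eq_or_lt_of_le hij with h | h
    · subst h; exact le_rfl
    · have h2 := ρ.pairwise_sort (· ≥ ·)
      exact List.pairwise_iff_getElem.1 h2 i j hi hj h
  · rw [List.getD_eq_default _ _ hj]
    exact Nat.zero_le _

theorem rowOf_pos {ρ : Multiset ℕ} (hρ : ∀ x ∈ ρ, 1 ≤ x) (i : ℕ) : i < Multiset.card ρ ↔ 1 ≤ rowOf ρ i := by
  unfold rowOf
  have hl : (ρ.sort (· ≥ ·)).length = Multiset.card ρ := Multiset.length_sort _
  constructor
  · intro h
    rw [List.getD_eq_getElem _ _ (by omega)]
    refine hρ _ ?_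
    have : (ρ.sort (· ≥ ·))[i]'(by omega) ∈ ρ.sort (· ≥ ·) := List.getElem_mem _
    rwa [Multiset.mem_sort] at this
  · intro h
    by_contra hc
    rw [List.getD_eq_default _ _ (by omega)] at h
    omega

private theorem sum_getD (l : List ℕ) : ∑ i ∈ Finset.range l.length, l.getD i 0 = l.sum := by
  induction l with
  | nil => simp
  | cons a l ih =>
    rw [List.length_cons, Finset.sum_range_succ', List.sum_cons, ← ih, add_comm]
    rfl

theorem rowOf_sum (ρ : Multiset ℕ) : ∑ i ∈ Finset.range (Multiset.card ρ), rowOf ρ i = ρ.sum := by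
  have hl : (ρ.sort (· ≥ ·)).length = Multiset.card ρ := Multiset.length_sort _
  have h := sum_getD (ρ.sort (· ≥ ·))
  rw [hl] at h
  unfold rowOf
  rw [h, ← Multiset.sum_coe, Multiset.sort_eq]

private theorem bar_eq' (s : Multiset ℕ) : bar s = (s.filter fun i => 1 < i).map fun i => i - 1 := by
  unfold bar
  rw [Multiset.filter_map]
  congr 1
  refine Multiset.filter_congr fun i _ => ?_
  simp only [Function.comp_apply]
  omega

/-- the partition with the first column added -/
def addCol (ρ : Multiset ℕ) (n : ℕ) : Multiset ℕ :=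
  ρ.map (fun x => x + 1) + Multiset.replicate (n - (ρ.sum + Multiset.card ρ)) 1

private theorem sum_map_succ (s : Multiset ℕ) : (s.map fun x => x + 1).sum = s.sum + Multiset.card s := by
  induction s using Multiset.induction_on with
  | empty => simp
  | cons a s ih =>
    rw [Multiset.map_cons, Multiset.sum_cons, ih, Multiset.sum_cons, Multiset.card_cons]
    ring

theorem bar_iff {ρ : Multiset ℕ} (hρ : ∀ x ∈ ρ, 1 ≤ x) (n : ℕ) (μ : Nat.Partition n) :
    bar μ.parts = ρ ↔ ρ.sum + Multiset.card ρ ≤ n ∧ μ.parts = addCol ρ n := by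
  rw [bar_eq']
  constructor
  · intro h
    have h1 : (μ.parts.filter fun i => 1 < i) + (μ.parts.filter fun i => ¬ 1 < i) = μ.parts :=
      Multiset.filter_add_not _ _
    have h2 : (μ.parts.filter fun i => ¬ 1 < i) =
        Multiset.replicate (Multiset.card (μ.parts.filter fun i => ¬ 1 < i)) 1 := by
      refine Multiset.eq_replicate_of_mem fun i hi => ?_
      rw [Multiset.mem_filter] at hi
      have := μ.parts_pos hi.1
      omega
    have h3 : (μ.parts.filter fun i => 1 < i) = ρ.map fun x => x + 1 := by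
      rw [← h, Multiset.map_map]
      conv_lhs => rw [← Multiset.map_id (μ.parts.filter fun i => 1 < i)]
      refine Multiset.map_congr rfl fun i hi => ?_
      rw [Multiset.mem_filter] at hi
      simp only [id, Function.comp_apply]
      omega
    have h4 := congrArg Multiset.sum h1
    rw [Multiset.sum_add, μ.parts_sum, h2, Multiset.sum_replicate, smul_eq_mul, mul_one, h3, sum_map_succ] at h4
    refine ⟨by omega, ?_⟩
    rw [addCol, ← h1, h2, h3]
    congr 2
    omega
  · rintro ⟨_, h⟩
    rw [h, addCol, Multiset.filter_add]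
    have h1 : ((Multiset.replicate (n - (ρ.sum + Multiset.card ρ)) 1).filter fun i => 1 < i) = 0 := by
      rw [Multiset.filter_eq_nil]
      intro i hi
      rw [Multiset.eq_of_mem_replicate hi]
      omega
    have h2 : ((ρ.map fun x => x + 1).filter fun i => 1 < i) = ρ.map fun x => x + 1 := by
      rw [Multiset.filter_eq_self]
      intro i hi
      rw [Multiset.mem_map] at hi
      obtain ⟨x, hx, rfl⟩ := hi
      have := hρ x hx
      omega
    rw [h1, h2, add_zero, Multiset.map_map]
    conv_rhs => rw [← Multiset.map_id ρ]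
    refine Multiset.map_congr rfl fun i _ => ?_
    simp

theorem barCoeff_eq {K : Type} [Field K] {ρ : Multiset ℕ} (hρ : ∀ x ∈ ρ, 1 ≤ x) (g : MvPolynomial ℕ K) (n : ℕ) :
    ∃ μ : Nat.Partition n, (ρ.sum + Multiset.card ρ ≤ n → μ.parts = addCol ρ n) ∧
      barCoeff g n ρ = if ρ.sum + Multiset.card ρ ≤ n then sc g μ.parts else 0 := by
  by_cases h : ρ.sum + Multiset.card ρ ≤ n
  · have hex : ∃ μ : Nat.Partition n, μ.parts = addCol ρ n := by
      refine ⟨⟨addCol ρ n, fun {i} hi => ?_, ?_⟩, rfl⟩
      · rw [addCol, Multiset.mem_add] at hi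
        rcases hi with hi | hi
        · rw [Multiset.mem_map] at hi
          obtain ⟨x, _, rfl⟩ := hi
          omega
        · rw [Multiset.eq_of_mem_replicate hi]; exact one_pos
      · rw [addCol, Multiset.sum_add, sum_map_succ, Multiset.sum_replicate, smul_eq_mul, mul_one]
        omega
    obtain ⟨μ, hμ⟩ := hex
    refine ⟨μ, fun _ => hμ, ?_⟩
    rw [if_pos h]
    unfold barCoeff
    rw [Finset.sum_eq_single μ]
    · rw [if_pos ((bar_iff hρ n μ).2 ⟨h, hμ⟩)]
    · intro ν _ hν
      refine if_neg fun h2 => hν ?_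
      have h3 := ((bar_iff hρ n ν).1 h2).2
      exact Nat.Partition.ext (h3.trans hμ.symm)
    · intro h2
      exact absurd (Finset.mem_univ μ) h2
  · refine ⟨Nat.Partition.indiscrete n, fun h2 => absurd h2 h, ?_⟩
    rw [if_neg h]
    unfold barCoeff
    exact Finset.sum_eq_zero fun μ _ => if_neg fun h2 => h ((bar_iff hρ n μ).1 h2).1

theorem barCoeff_zero_part {K : Type} [Field K] {ρ : Multiset ℕ} (hρ : ¬ ∀ x ∈ ρ, 1 ≤ x) (g : MvPolynomial ℕ K) (n : ℕ) :
    barCoeff g n ρ = 0 := by
  unfold barCoeff
  refine Finset.sum_eq_zero fun μ _ => if_neg fun h => hρ fun x hx => ?_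
  rw [← h] at hx
  unfold bar at hx
  rw [Multiset.mem_filter] at hx
  exact hx.2

private theorem sort_addCol (ρ : Multiset ℕ) (n : ℕ) :
    (addCol ρ n).sort (· ≥ ·) =
      (ρ.sort (· ≥ ·)).map (fun x => x + 1) ++ List.replicate (n - (ρ.sum + Multiset.card ρ)) 1 := by
  have h1 : (addCol ρ n) = (((ρ.sort (· ≥ ·)).map (fun x => x + 1) ++
      List.replicate (n - (ρ.sum + Multiset.card ρ)) 1 : List ℕ) : Multiset ℕ) := by
    rw [← Multiset.coe_add, ← Multiset.map_coe, Multiset.sort_eq, Multiset.coe_replicate]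
    rfl
  rw [h1]
  refine List.Perm.eq_of_pairwise' ?_ ?_ ?_ (r := (· ≥ ·))
  · exact Multiset.pairwise_sort _ _
  · rw [List.pairwise_append]
    refine ⟨?_, List.pairwise_replicate.2 (Or.inr le_rfl), ?_⟩
    · rw [List.pairwise_map]
      exact (Multiset.pairwise_sort ρ (· ≥ ·)).imp fun h => Nat.succ_le_succ h
    · intro x hx y hy
      rw [List.mem_map] at hx
      obtain ⟨z, _, rfl⟩ := hx
      rw [List.eq_of_mem_replicate hy]
      omega
  · rw [← Multiset.coe_eq_coe, Multiset.sort_eq]

theorem barCoeff_eu {ρ : Multiset ℕ} (hρ : ∀ x ∈ ρ, 1 ≤ x) (q : ℝ) (A n : ℕ) :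
    barCoeff (eu q A n) n ρ = if ρ.sum + Multiset.card ρ ≤ n then SD q A (n - ρ.sum) (rowOf ρ) else 0 := by
  obtain ⟨μ, hμ, h⟩ := barCoeff_eq hρ (eu q A n) n
  rw [h]
  split_ifs with h1
  · rw [sc_eu]
    have h2 := hμ h1
    have h3 := sort_addCol ρ n
    rw [← h2] at h3
    have hl0 : (ρ.sort (· ≥ ·)).length = Multiset.card ρ := Multiset.length_sort _
    have hlen : (μ.parts.sort (· ≥ ·)).length = n - ρ.sum := by
      rw [h3, List.length_append, List.length_map, List.length_replicate, hl0]
      omega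
    unfold SD
    rw [← Matrix.det_submatrix_equiv_self (finCongr hlen.symm)]
    congr 1
    ext i j
    simp only [Matrix.submatrix_apply, Matrix.of_apply, finCongr_apply, Fin.val_cast]
    congr 3
    have hi : (i : ℕ) < (μ.parts.sort (· ≥ ·)).length := by rw [hlen]; exact i.2
    have h4 : ((μ.parts.sort (· ≥ ·)).get (Fin.cast hlen.symm i)) = rowOf ρ i + 1 := by
      rw [List.get_eq_getElem]
      simp only [Fin.val_cast]
      have h5 : (μ.parts.sort (· ≥ ·))[(i : ℕ)] = (μ.parts.sort (· ≥ ·)).getD i 0 := (List.getD_eq_getElem _ _ hi).symm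
      rw [h5, h3]
      unfold rowOf
      rcases Nat.lt_or_ge (i : ℕ) (Multiset.card ρ) with hc | hc
      · rw [List.getD_append _ _ _ _ (by rw [List.length_map, hl0]; exact hc),
          List.getD_eq_getElem _ _ (by rw [List.length_map, hl0]; exact hc), List.getElem_map,
          List.getD_eq_getElem _ _ (by rw [hl0]; exact hc)]
      · rw [List.getD_append_right _ _ _ _ (by rw [List.length_map, hl0]; exact hc),
          List.getD_eq_default _ _ (show (ρ.sort (· ≥ ·)).length ≤ (i : ℕ) by rw [hl0]; exact hc)]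
        have h6 : (i : ℕ) - ((ρ.sort (· ≥ ·)).map (fun x => x + 1)).length <
            (List.replicate (n - (ρ.sum + Multiset.card ρ)) 1).length := by
          rw [List.length_map, hl0, List.length_replicate]
          have := i.2
          omega
        rw [List.getD_eq_getElem _ _ h6, List.getElem_replicate]
    rw [h4]
    push_cast
    ring
  · rfl

end EllHall
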