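import Pool.Agent.Lib.MP_630b78_co.QO.EuA

/-!
Module Base: the commutator on the vector 1.
-/

namespace EllHall

open MvPolynomial

variable {K : Type} [Field K] [CharZero K]

omit [CharZero K] in
private theorem base_pow {q t : K} (hqt : q * t = 1) (a b c : ℕ) (hb : b = a + c) : t ^ b * q ^ a = t ^ c := by
  subst hb
  rw [pow_add, mul_right_comm, ← mul_pow, mul_comm t q, hqt, one_pow, one_mul]

omit [CharZero K] in
private theorem base_pow' {q t : K} (hqt : q * t = 1) (a b c : ℕ) (hb : b = a + c) : t ^ a * q ^ b = q ^ c := by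
  subst hb
  rw [pow_add, ← mul_assoc, ← mul_pow, mul_comm t q, hqt, one_pow, one_mul]

theorem base_id {q t : K} (hqt : q * t = 1) (u k v l : ℕ) (h : 1 - q ^ (u + k) ≠ 0) :
    (∑ rs ∈ Finset.HasAntidiagonal.antidiagonal l, Fc q t u k rs.2 • (eu q u (v + rs.2) * eu q k rs.1)) -
      (∑ rs ∈ Finset.HasAntidiagonal.antidiagonal v, Fc q t k u rs.2 • (eu q k (l + rs.2) * eu q u rs.1)) =
    ((1 - q ^ u) * (1 - q ^ k) / (1 - q ^ (u + k)) * (t ^ (u * l) - t ^ (k * v))) • eu q (u + k) (v + l) := by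
  have hR : ((1 - q ^ u) * (1 - q ^ k) / (1 - q ^ (u + k)) * (t ^ (u * l) - t ^ (k * v))) • eu q (u + k) (v + l) =
      ∑ r ∈ Finset.range (v + (l + 1)), ((1 - q ^ u) * (1 - q ^ k) / (1 - q ^ (u + k)) *
        (t ^ (u * l) * q ^ (u * (v + l - r)) - t ^ (k * v) * q ^ (k * r))) • (eu q u r * eu q k (v + l - r)) := by
    have e1 : eu q (u + k) (v + l) = ∑ r ∈ Finset.range (v + (l + 1)), q ^ (u * (v + l - r)) • (eu q u r * eu q k (v + l - r)) := by
      rw [eu_add, Finset.Nat.sum_antidiagonal_eq_sum_range_succ_mk]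
      rfl
    have e2 : eu q (u + k) (v + l) = ∑ r ∈ Finset.range (v + (l + 1)), q ^ (k * r) • (eu q u r * eu q k (v + l - r)) := by
      rw [add_comm u k, eu_add, ← Finset.Nat.sum_antidiagonal_swap, Finset.Nat.sum_antidiagonal_eq_sum_range_succ_mk]
      refine Finset.sum_congr rfl fun r _ => ?_
      simp only [Prod.swap]
      rw [mul_comm (eu q k _)]
    have e3 : ((1 - q ^ u) * (1 - q ^ k) / (1 - q ^ (u + k)) * (t ^ (u * l) - t ^ (k * v))) • eu q (u + k) (v + l) =
        ((1 - q ^ u) * (1 - q ^ k) / (1 - q ^ (u + k)) * t ^ (u * l)) • eu q (u + k) (v + l) -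
        ((1 - q ^ u) * (1 - q ^ k) / (1 - q ^ (u + k)) * t ^ (k * v)) • eu q (u + k) (v + l) := by
      rw [← sub_smul]
      ring_nf
    rw [e3]
    nth_rewrite 1 [e1]
    rw [e2, Finset.smul_sum, Finset.smul_sum, ← Finset.sum_sub_distrib]
    refine Finset.sum_congr rfl fun r _ => ?_
    rw [smul_smul, smul_smul, ← sub_smul]
    congr 1
    ring
  have hA : ∑ rs ∈ Finset.HasAntidiagonal.antidiagonal l, Fc q t u k rs.2 • (eu q u (v + rs.2) * eu q k rs.1) =
      (∑ b ∈ Finset.range l, Fc q t u k (b + 1) • (eu q u (v + (b + 1)) * eu q k (l - (b + 1)))) + eu q u v * eu q k l := by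
    rw [← Finset.Nat.sum_antidiagonal_swap, Finset.Nat.sum_antidiagonal_eq_sum_range_succ_mk, Finset.sum_range_succ']
    simp [Fc]
  have hB : ∑ rs ∈ Finset.HasAntidiagonal.antidiagonal v, Fc q t k u rs.2 • (eu q k (l + rs.2) * eu q u rs.1) =
      (∑ b ∈ Finset.range v, Fc q t k u (b + 1) • (eu q k (l + (b + 1)) * eu q u (v - (b + 1)))) + eu q k l * eu q u v := by
    rw [← Finset.Nat.sum_antidiagonal_swap, Finset.Nat.sum_antidiagonal_eq_sum_range_succ_mk, Finset.sum_range_succ']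
    simp [Fc]
  rw [hR, Finset.sum_range_add, Finset.sum_range_succ', ← Finset.sum_range_reflect _ v, hA, hB]
  have e0 : t ^ (u * l) * q ^ (u * (v + l - (v + 0))) - t ^ (k * v) * q ^ (k * (v + 0)) = 0 := by
    rw [Nat.add_zero, Nat.add_sub_cancel_left, ← mul_pow, ← mul_pow, mul_comm t q, hqt, one_pow, one_pow, sub_self]
  rw [e0, mul_zero, zero_smul, add_zero, mul_comm (eu q k l) (eu q u v)]
  have hC : ∑ b ∈ Finset.range l, Fc q t u k (b + 1) • (eu q u (v + (b + 1)) * eu q k (l - (b + 1))) =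
      ∑ b ∈ Finset.range l, ((1 - q ^ u) * (1 - q ^ k) / (1 - q ^ (u + k)) *
        (t ^ (u * l) * q ^ (u * (v + l - (v + (b + 1)))) - t ^ (k * v) * q ^ (k * (v + (b + 1))))) •
          (eu q u (v + (b + 1)) * eu q k (v + l - (v + (b + 1)))) := by
    refine Finset.sum_congr rfl fun b hb => ?_
    rw [Finset.mem_range] at hb
    have e1 : v + l - (v + (b + 1)) = l - (b + 1) := by omega
    rw [e1, base_pow hqt (u * (l - (b + 1))) (u * l) (u * (b + 1)) (by rw [← mul_add]; congr 1; omega),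
      base_pow' hqt (k * v) (k * (v + (b + 1))) (k * (b + 1)) (by rw [← mul_add]), Fc, if_neg (Nat.succ_ne_zero b)]
  have hD : ∑ b ∈ Finset.range v, Fc q t k u (b + 1) • (eu q k (l + (b + 1)) * eu q u (v - (b + 1))) =
      - ∑ b ∈ Finset.range v, ((1 - q ^ u) * (1 - q ^ k) / (1 - q ^ (u + k)) *
        (t ^ (u * l) * q ^ (u * (v + l - (v - 1 - b))) - t ^ (k * v) * q ^ (k * (v - 1 - b)))) •
          (eu q u (v - 1 - b) * eu q k (v + l - (v - 1 - b))) := by
    rw [← Finset.sum_neg_distrib]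
    refine Finset.sum_congr rfl fun b hb => ?_
    rw [Finset.mem_range] at hb
    have e1 : v + l - (v - 1 - b) = l + (b + 1) := by omega
    have e2 : v - 1 - b = v - (b + 1) := by omega
    rw [e1, e2, base_pow' hqt (u * l) (u * (l + (b + 1))) (u * (b + 1)) (by rw [← mul_add]),
      base_pow hqt (k * (v - (b + 1))) (k * v) (k * (b + 1)) (by rw [← mul_add]; congr 1; omega), Fc, if_neg (Nat.succ_ne_zero b),
      ← neg_smul, mul_comm (eu q k (l + (b + 1)))]
    congr 1
    rw [add_comm k u]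
    ring
  rw [hC, hD]
  abel

end EllHall
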