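import Pool.Agent.Lib.MP_630b78_co.QO.Defs

/-!
Module Mono: the monotonicity in `N` of a product of `q`-numbers.
-/

namespace EllHall

open Finset

private theorem qn_nonneg {q : ℝ} (h0 : 0 < q) (n : ℕ) : 0 ≤ qn q n :=
  Finset.sum_nonneg fun i _ => pow_nonneg h0.le i

private theorem qn_add (q : ℝ) (x z : ℕ) : qn q (x + z) = qn q x + q ^ x * qn q z := by
  unfold qn
  rw [Finset.sum_range_add, Finset.mul_sum]
  congr 1
  exact Finset.sum_congr rfl fun i _ => pow_add q x i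

/-- `[x + z] [y] - [x] [y + z] = q^x [z] [y - x]` -/
private theorem qn_star {q : ℝ} (h0 : 0 < q) {x y : ℕ} (z : ℕ) (hxy : x ≤ y) :
    qn q x * qn q (y + z) ≤ qn q (x + z) * qn q y := by
  obtain ⟨w, rfl⟩ := Nat.exists_eq_add_of_le' hxy
  have e1 : qn q (w + x + z) = qn q (w + x) + q ^ (w + x) * qn q z := qn_add q (w + x) z
  have e2 : qn q (w + x) = qn q w + q ^ w * qn q x := qn_add q w x
  have e3 : qn q (x + z) = qn q x + q ^ x * qn q z := qn_add q x z
  have h1 : 0 ≤ q ^ x * qn q z * qn q w := mul_nonneg (mul_nonneg (pow_nonneg h0.le x) (qn_nonneg h0 z)) (qn_nonneg h0 w)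
  rw [e1, e3, e2, pow_add]
  nlinarith [h1]

/-- The factor with the numbers `N - t` and `N - d`, `d ≤ t`. -/
private theorem qn_pair {q : ℝ} (h0 : 0 < q) {A B xA xB yA yB : ℕ} (hAB : A ≤ B) (hx : xB = xA + (B - A))
    (hy : yB = yA + (B - A)) (hxy : xA ≤ yA) : qn q xA * qn q yB ≤ qn q xB * qn q yA := by
  subst hx
  subst hy
  exact qn_star h0 (B - A) hxy

/-- A product over an interval cut into blocks. -/
private theorem prod_block (ν : ℕ → ℕ) (f : ℕ → ℝ) (p : ℕ) :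
    ∏ t ∈ range (∑ i ∈ range p, ν i), f t = ∏ i ∈ range p, ∏ s ∈ range (ν i), f ((∑ j ∈ range i, ν j) + s) := by
  induction p with
  | zero => simp
  | succ p ih =>
    rw [Finset.sum_range_succ, Finset.prod_range_add, ih, Finset.prod_range_succ (fun i => ∏ s ∈ range (ν i), f ((∑ j ∈ range i, ν j) + s))]

private theorem one_eq {q : ℝ} (p k : ℕ) (ν : ℕ → ℕ) (hp1 : p ≤ 1) (hk : ∑ i ∈ range p, ν i = k) (N : ℕ) :
    (∏ i ∈ range p, qn q (N - (k - ν i + i))) * ∏ i ∈ range p, ∏ s ∈ range (ν i), qn q (N + i - (s + 1)) =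
      ∏ t ∈ range (k + p), qn q (N - t) := by
  have h : p = 0 ∨ p = 1 := by omega
  rcases h with rfl | rfl
  · rw [Finset.sum_range_zero] at hk
    subst hk
    simp
  · rw [Finset.sum_range_one] at hk
    subst hk
    rw [Finset.prod_range_one, Finset.prod_range_one, Finset.prod_range_succ' (fun t => qn q (N - t)), Nat.sub_self]
    simp only [Nat.add_zero]
    exact mul_comm _ _

private theorem mono_eq' {q : ℝ} (p k : ℕ) (ν : ℕ → ℕ) (hp1 : p ≤ 1) (hk : ∑ i ∈ range p, ν i = k) (A B : ℕ) :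
    (∏ t ∈ range (k + p), qn q (A - t)) * ((∏ i ∈ range p, qn q (B - (k - ν i + i))) *
        ∏ i ∈ range p, ∏ s ∈ range (ν i), qn q (B + i - (s + 1))) =
      (∏ t ∈ range (k + p), qn q (B - t)) * ((∏ i ∈ range p, qn q (A - (k - ν i + i))) *
        ∏ i ∈ range p, ∏ s ∈ range (ν i), qn q (A + i - (s + 1))) := by
  rw [one_eq p k ν hp1 hk A, one_eq p k ν hp1 hk B]
  exact mul_comm _ _

private theorem num_eq {q : ℝ} (n m k : ℕ) (ν : ℕ → ℕ) (hm : ν 1 = m + 1) (hk : ∑ i ∈ range (n + 2), ν i = k) (N : ℕ) :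
    ∏ t ∈ range (k + (n + 2)), qn q (N - t) =
      (∏ i ∈ range (n + 2), qn q (N - (k + i))) *
        (((∏ i ∈ range n, ∏ s ∈ range (ν (i + 2)), qn q (N - ((∑ j ∈ range (i + 2), ν j) + s))) *
          ∏ s ∈ range m, qn q (N - (ν 0 + (s + 1)))) * ∏ s ∈ range (ν 0 + 1), qn q (N - s)) := by
  rw [Finset.prod_range_add, ← hk, prod_block ν (fun t => qn q (N - t)) (n + 2),
    Finset.prod_range_succ' (fun i => ∏ s ∈ range (ν i), qn q (N - ((∑ j ∈ range i, ν j) + s))) (n + 1),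
    Finset.prod_range_succ' (fun i => ∏ s ∈ range (ν (i + 1)), qn q (N - ((∑ j ∈ range (i + 1), ν j) + s))) n,
    Finset.prod_range_succ (fun s => qn q (N - s)) (ν 0)]
  simp only [zero_add, hm, Finset.sum_range_one, Finset.sum_range_zero]
  rw [Finset.prod_range_succ' (fun s => qn q (N - (ν 0 + s))) m]
  simp only [add_zero, add_assoc, Nat.reduceAdd]
  ring

private theorem den_eq {q : ℝ} (n m : ℕ) (ν : ℕ → ℕ) (hm : ν 1 = m + 1) (N : ℕ) :
    ∏ i ∈ range (n + 2), ∏ s ∈ range (ν i), qn q (N + i - (s + 1)) =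
        ((∏ i ∈ range n, ∏ s ∈ range (ν (i + 2)), qn q (N + (i + 2) - (s + 1))) *
          ∏ s ∈ range m, qn q (N + 1 - (s + 1 + 1))) * ∏ s ∈ range (ν 0 + 1), qn q (N - s) := by
  rw [Finset.prod_range_succ' (fun i => ∏ s ∈ range (ν i), qn q (N + i - (s + 1))) (n + 1),
    Finset.prod_range_succ' (fun i => ∏ s ∈ range (ν (i + 1)), qn q (N + (i + 1) - (s + 1))) n,
    Finset.prod_range_succ' (fun s => qn q (N - s)) (ν 0)]
  simp only [zero_add, hm]
  rw [Finset.prod_range_succ' (fun s => qn q (N + 1 - (s + 1))) m]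
  simp only [add_zero, zero_add, Nat.add_sub_cancel, Nat.sub_zero, add_assoc, Nat.reduceAdd]
  ring

theorem mono_psi {q : ℝ} (h0 : 0 < q) (p k : ℕ) (ν : ℕ → ℕ) (hν : Antitone ν) (hp : ∀ i, i < p ↔ 1 ≤ ν i)
    (hk : ∑ i ∈ range p, ν i = k) (A B : ℕ) (hA : k + p ≤ A) (hAB : A ≤ B) :
    (∏ t ∈ range (k + p), qn q (A - t)) * ((∏ i ∈ range p, qn q (B - (k - ν i + i))) *
        ∏ i ∈ range p, ∏ s ∈ range (ν i), qn q (B + i - (s + 1))) ≤
      (∏ t ∈ range (k + p), qn q (B - t)) * ((∏ i ∈ range p, qn q (A - (k - ν i + i))) *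
        ∏ i ∈ range p, ∏ s ∈ range (ν i), qn q (A + i - (s + 1))) := by
  by_cases hp2 : p ≤ 1
  · exact (mono_eq' p k ν hp2 hk A B).le
  obtain ⟨n, rfl⟩ : ∃ n, p = n + 2 := ⟨p - 2, by omega⟩
  obtain ⟨m, hm⟩ : ∃ m, ν 1 = m + 1 := ⟨ν 1 - 1, by have := (hp 1).1 (by omega); omega⟩
  have hS : ∀ i, i ≤ n + 2 → ∑ j ∈ range i, ν j ≤ k := by
    intro i hi
    rw [← hk]
    exact Finset.sum_le_sum_of_subset (Finset.range_mono hi)
  have hpos : ∀ x, 0 ≤ qn q x := qn_nonneg h0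
  rw [num_eq n m k ν hm hk A, num_eq n m k ν hm hk B, den_eq n m ν hm A, den_eq n m ν hm B]
  have hX : (∏ i ∈ range (n + 2), qn q (A - (k + i))) * (∏ i ∈ range (n + 2), qn q (B - (k - ν i + i))) ≤
      (∏ i ∈ range (n + 2), qn q (B - (k + i))) * ∏ i ∈ range (n + 2), qn q (A - (k - ν i + i)) := by
    rw [← Finset.prod_mul_distrib, ← Finset.prod_mul_distrib]
    refine Finset.prod_le_prod (fun i _ => mul_nonneg (hpos _) (hpos _)) fun i hi => ?_
    have hi' := Finset.mem_range.mp hi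
    exact qn_pair h0 hAB (by omega) (by omega) (by omega)
  have hY1 : (∏ i ∈ range n, ∏ s ∈ range (ν (i + 2)), qn q (A - ((∑ j ∈ range (i + 2), ν j) + s))) *
        (∏ i ∈ range n, ∏ s ∈ range (ν (i + 2)), qn q (B + (i + 2) - (s + 1))) ≤
      (∏ i ∈ range n, ∏ s ∈ range (ν (i + 2)), qn q (B - ((∑ j ∈ range (i + 2), ν j) + s))) *
        ∏ i ∈ range n, ∏ s ∈ range (ν (i + 2)), qn q (A + (i + 2) - (s + 1)) := by
    rw [← Finset.prod_mul_distrib, ← Finset.prod_mul_distrib]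
    refine Finset.prod_le_prod (fun i _ => mul_nonneg (Finset.prod_nonneg fun _ _ => hpos _)
      (Finset.prod_nonneg fun _ _ => hpos _)) fun i hi => ?_
    have hi' := Finset.mem_range.mp hi
    rw [← Finset.prod_mul_distrib, ← Finset.prod_mul_distrib]
    refine Finset.prod_le_prod (fun s _ => mul_nonneg (hpos _) (hpos _)) fun s hs => ?_
    have hs' := Finset.mem_range.mp hs
    have h1 := hS (i + 2 + 1) (by omega)
    rw [Finset.sum_range_succ] at h1
    exact qn_pair h0 hAB (by omega) (by omega) (by omega)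
  have hY2 : (∏ s ∈ range m, qn q (A - (ν 0 + (s + 1)))) * (∏ s ∈ range m, qn q (B + 1 - (s + 1 + 1))) ≤
      (∏ s ∈ range m, qn q (B - (ν 0 + (s + 1)))) * ∏ s ∈ range m, qn q (A + 1 - (s + 1 + 1)) := by
    rw [← Finset.prod_mul_distrib, ← Finset.prod_mul_distrib]
    refine Finset.prod_le_prod (fun i _ => mul_nonneg (hpos _) (hpos _)) fun s hs => ?_
    have hs' := Finset.mem_range.mp hs
    have h1 := hS 2 (by omega)
    rw [Finset.sum_range_succ, Finset.sum_range_one] at h1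
    exact qn_pair h0 hAB (by omega) (by omega) (by omega)
  have hZ : 0 ≤ (∏ s ∈ range (ν 0 + 1), qn q (A - s)) * ∏ s ∈ range (ν 0 + 1), qn q (B - s) :=
    mul_nonneg (Finset.prod_nonneg fun _ _ => hpos _) (Finset.prod_nonneg fun _ _ => hpos _)
  have hXn : 0 ≤ (∏ i ∈ range (n + 2), qn q (B - (k + i))) * ∏ i ∈ range (n + 2), qn q (A - (k - ν i + i)) :=
    mul_nonneg (Finset.prod_nonneg fun _ _ => hpos _) (Finset.prod_nonneg fun _ _ => hpos _)
  have hY1n : 0 ≤ (∏ i ∈ range n, ∏ s ∈ range (ν (i + 2)), qn q (A - ((∑ j ∈ range (i + 2), ν j) + s))) *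
        (∏ i ∈ range n, ∏ s ∈ range (ν (i + 2)), qn q (B + (i + 2) - (s + 1))) :=
    mul_nonneg (Finset.prod_nonneg fun _ _ => Finset.prod_nonneg fun _ _ => hpos _)
      (Finset.prod_nonneg fun _ _ => Finset.prod_nonneg fun _ _ => hpos _)
  have hY1n' : 0 ≤ (∏ i ∈ range n, ∏ s ∈ range (ν (i + 2)), qn q (B - ((∑ j ∈ range (i + 2), ν j) + s))) *
        ∏ i ∈ range n, ∏ s ∈ range (ν (i + 2)), qn q (A + (i + 2) - (s + 1)) := hY1n.trans hY1
  have hY2n : 0 ≤ (∏ s ∈ range m, qn q (A - (ν 0 + (s + 1)))) * (∏ s ∈ range m, qn q (B + 1 - (s + 1 + 1))) :=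
    mul_nonneg (Finset.prod_nonneg fun _ _ => hpos _) (Finset.prod_nonneg fun _ _ => hpos _)
  have hY := mul_le_mul hY1 hY2 hY2n hY1n'
  have hXY := mul_le_mul hX hY (mul_nonneg hY1n hY2n) hXn
  have hfin := mul_le_mul_of_nonneg_right hXY hZ
  refine le_trans (le_of_eq ?_) (hfin.trans (le_of_eq ?_))
  · ring
  · ring

theorem mono_eq {q : ℝ} (p k : ℕ) (ν : ℕ → ℕ) (hp1 : p ≤ 1) (hk : ∑ i ∈ range p, ν i = k) (A B : ℕ) (hA : k + p ≤ A)
    (hAB : A ≤ B) :
    (∏ t ∈ range (k + p), qn q (A - t)) * ((∏ i ∈ range p, qn q (B - (k - ν i + i))) *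
        ∏ i ∈ range p, ∏ s ∈ range (ν i), qn q (B + i - (s + 1))) =
      (∏ t ∈ range (k + p), qn q (B - t)) * ((∏ i ∈ range p, qn q (A - (k - ν i + i))) *
        ∏ i ∈ range p, ∏ s ∈ range (ν i), qn q (A + i - (s + 1))) := by
  exact mono_eq' p k ν hp1 hk A B

end EllHall
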