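import Pool.Agent.Lib.MP_630b78_co.QO.Defs

/-!
Module Prd: simplification of the product `PD`.
-/

namespace EllHall

open Finset

/-- a factor which depends only on `ν` -/
noncomputable def HD (q : ℝ) (p : ℕ) (ν : ℕ → ℕ) : ℝ :=
  (∏ i ∈ range p, qf q (p - 1 - i) / qf q (ν i + p - 1 - i)) *
    ∏ j ∈ range p, ∏ i ∈ range j, qn q (ν i - ν j + (j - i)) / qn q (j - i)

private theorem prd_qn_pos {q : ℝ} (h0 : 0 < q) {u : ℕ} (hu : 0 < u) : 0 < qn q u :=
  Finset.sum_pos (fun i _ => pow_pos h0 i) ⟨0, Finset.mem_range.2 hu⟩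

private theorem prd_qf_pos {q : ℝ} (h0 : 0 < q) (u : ℕ) : 0 < qf q u :=
  Finset.prod_pos fun i _ => prd_qn_pos h0 (Nat.succ_pos i)

private theorem prd_qf_pred (q : ℝ) {u : ℕ} (hu : 0 < u) : qf q u = qf q (u - 1) * qn q u := by
  obtain ⟨v, rfl⟩ : ∃ v, u = v + 1 := ⟨u - 1, by omega⟩
  simp [qf, Finset.prod_range_succ]

private theorem prd_qf_zero (q : ℝ) : qf q 0 = 1 := by simp [qf]

private theorem prd_qn_one (q : ℝ) : qn q 1 = 1 := by simp [qn]

/-- falling products -/
private theorem prd_fall {q : ℝ} (u k : ℕ) (hk : k ≤ u) :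
    qf q u = qf q (u - k) * ∏ s ∈ range k, qn q (u + 1 - (s + 1)) := by
  induction k with
  | zero => simp
  | succ k ih =>
    rw [ih (by omega), Finset.prod_range_succ, prd_qf_pred q (u := u - k) (by omega)]
    have e1 : u - k - 1 = u - (k + 1) := by omega
    have e2 : u + 1 - (k + 1) = u - k := by omega
    rw [e1, e2]
    ring

private theorem prd_rise {q : ℝ} (h0 : 0 < q) (A p : ℕ) (hA : 1 ≤ A) :
    ∏ i ∈ range p, qn q (A + i) = qf q (A + p - 1) * qn q A / qf q A := by
  have hA0 := (prd_qf_pos h0 A).ne'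
  induction p with
  | zero =>
    rw [Finset.prod_range_zero, prd_qf_pred q (u := A) (by omega)] at *
    have h1 : qf q (A + 0 - 1) = qf q (A - 1) := by simp
    rw [h1, div_self]
    exact hA0
  | succ p ih =>
    rw [Finset.prod_range_succ, ih, prd_qf_pred q (u := A + (p + 1) - 1) (by omega)]
    have e1 : A + (p + 1) - 1 - 1 = A + p - 1 := by omega
    have e2 : A + (p + 1) - 1 = A + p := by omega
    rw [e1, e2]
    ring

private theorem prd_base {q : ℝ} (h0 : 0 < q) (A p : ℕ) (ν : ℕ → ℕ) (hν : Antitone ν) (hA : ν 0 + 1 ≤ A) :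
    PD q A p ν = HD q p ν * qf q (A + p - 1) * qn q A *
      (∏ i ∈ range p, ∏ s ∈ range (ν i), qn q (A + i - (s + 1))) /
        (qf q A * qf q (p - p) * ∏ i ∈ range p, qn q (p + ν i - i)) := by
  have h1 : ∀ i ∈ range p, (qf q (p - 1 - i) * qf q (A + i)) / (qf q (ν i + p - i) * qf q (A + i - 1 - ν i)) =
      (qf q (p - 1 - i) / qf q (ν i + p - 1 - i)) *
        (qn q (A + i) * ∏ s ∈ range (ν i), qn q (A + i - (s + 1))) / qn q (p + ν i - i) := by
    intro i hi
    rw [Finset.mem_range] at hi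
    have hνi : ν i ≤ ν 0 := hν (Nat.zero_le i)
    have e1 : qf q (ν i + p - i) = qf q (ν i + p - 1 - i) * qn q (p + ν i - i) := by
      rw [prd_qf_pred q (u := ν i + p - i) (by omega)]
      congr 2 <;> omega
    have e2 : qf q (A + i) = qf q (A + i - 1) * qn q (A + i) := prd_qf_pred q (by omega)
    have e3 : qf q (A + i - 1) = qf q (A + i - 1 - ν i) * ∏ s ∈ range (ν i), qn q (A + i - (s + 1)) := by
      rw [prd_fall (q := q) (A + i - 1) (ν i) (by omega)]
      congr 1
      refine Finset.prod_congr rfl fun s _ => ?_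
      congr 1
      omega
    have p1 := (prd_qf_pos h0 (ν i + p - 1 - i)).ne'
    have p2 := (prd_qn_pos h0 (u := p + ν i - i) (by omega)).ne'
    have p3 := (prd_qf_pos h0 (A + i - 1 - ν i)).ne'
    rw [e1, e2, e3]
    field_simp
  have hq0 : qf q (p - p) = 1 := by rw [Nat.sub_self, prd_qf_zero]
  unfold PD HD
  rw [Finset.prod_congr rfl h1, Finset.prod_div_distrib, Finset.prod_mul_distrib, Finset.prod_mul_distrib,
    prd_rise h0 A p (by omega), hq0, mul_one]
  have p1 := (prd_qf_pos h0 A).ne'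
  have p2 : ∏ i ∈ range p, qn q (p + ν i - i) ≠ 0 := by
    refine (Finset.prod_pos fun i hi => prd_qn_pos h0 ?_).ne'
    rw [Finset.mem_range] at hi
    omega
  generalize (∏ i ∈ range p, ∏ s ∈ range (ν i), qn q (A + i - (s + 1))) = X
  generalize (∏ i ∈ range p, qf q (p - 1 - i) / qf q (ν i + p - 1 - i)) = Y
  generalize (∏ j ∈ range p, ∏ i ∈ range j, qn q (ν i - ν j + (j - i)) / qn q (j - i)) = Z
  field_simp

private theorem prd_step {q : ℝ} (h0 : 0 < q) (A n p : ℕ) (ν : ℕ → ℕ) (hν : Antitone ν) (hp : ∀ i, p ≤ i → ν i = 0)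
    (hpn : p ≤ n) (hA : ν 0 + 1 ≤ A) :
    PD q A (n + 1) ν = PD q A n ν * (qn q (A + n) * ∏ i ∈ range n, (qn q (n + ν i - i) / qn q (n + 1 + ν i - i))) := by
  unfold PD
  rw [Finset.prod_range_succ, Finset.prod_range_succ _ n]
  have hn : ν n = 0 := hp n hpn
  have h1 : ∀ i ∈ range n, (qf q (n + 1 - 1 - i) * qf q (A + i)) / (qf q (ν i + (n + 1) - i) * qf q (A + i - 1 - ν i)) =
      (qf q (n - 1 - i) * qf q (A + i)) / (qf q (ν i + n - i) * qf q (A + i - 1 - ν i)) *
        (qn q (n - i) / qn q (n + 1 + ν i - i)) := by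
    intro i hi
    rw [Finset.mem_range] at hi
    have e1 : qf q (ν i + (n + 1) - i) = qf q (ν i + n - i) * qn q (n + 1 + ν i - i) := by
      rw [prd_qf_pred q (u := ν i + (n + 1) - i) (by omega)]
      congr 2 <;> omega
    have e2 : qf q (n + 1 - 1 - i) = qf q (n - 1 - i) * qn q (n - i) := by
      rw [prd_qf_pred q (u := n + 1 - 1 - i) (by omega)]
      congr 2 <;> omega
    have p1 := (prd_qf_pos h0 (ν i + n - i)).ne'
    have p2 := (prd_qn_pos h0 (u := n + 1 + ν i - i) (by omega)).ne'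
    have p3 := (prd_qf_pos h0 (A + i - 1 - ν i)).ne'
    rw [e1, e2]
    field_simp
  have h2 : (qf q (n + 1 - 1 - n) * qf q (A + n)) / (qf q (ν n + (n + 1) - n) * qf q (A + n - 1 - ν n)) = qn q (A + n) := by
    have a1 : n + 1 - 1 - n = 0 := by omega
    have a2 : ν n + (n + 1) - n = 1 := by omega
    have a3 : A + n - 1 - ν n = A + n - 1 := by omega
    have e1 : qf q 1 = 1 := by simp [qf, qn]
    have p3 := (prd_qf_pos h0 (A + n - 1)).ne'
    rw [a1, a2, a3, e1, prd_qf_zero, prd_qf_pred q (u := A + n) (by omega)]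
    field_simp
  have h3 : ∏ i ∈ range n, (qn q (n - i) / qn q (n + 1 + ν i - i)) * (qn q (ν i - ν n + (n - i)) / qn q (n - i)) =
      ∏ i ∈ range n, (qn q (n + ν i - i) / qn q (n + 1 + ν i - i)) := by
    refine Finset.prod_congr rfl fun i hi => ?_
    rw [Finset.mem_range] at hi
    have a1 : ν i - ν n + (n - i) = n + ν i - i := by omega
    have p1 := (prd_qn_pos h0 (u := n - i) (by omega)).ne'
    have p2 := (prd_qn_pos h0 (u := n + 1 + ν i - i) (by omega)).ne'
    rw [a1]
    field_simp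
  rw [Finset.prod_congr rfl h1, h2, Finset.prod_mul_distrib, ← h3, Finset.prod_mul_distrib]
  ring

private theorem prd_tele {q : ℝ} (h0 : 0 < q) (n p : ℕ) (ν : ℕ → ℕ) (hp : ∀ i, p ≤ i → ν i = 0) (hpn : p ≤ n) :
    ∏ i ∈ range n, (qn q (n + ν i - i) / qn q (n + 1 + ν i - i)) =
      (∏ i ∈ range p, (qn q (n + ν i - i) / qn q (n + 1 + ν i - i))) / qn q (n + 1 - p) := by
  obtain ⟨k, rfl⟩ : ∃ k, n = p + k := ⟨n - p, by omega⟩
  rw [Finset.prod_range_add, div_eq_mul_inv]
  congr 1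
  have h1 : ∀ m, m ≤ k → ∏ x ∈ range m, (qn q (p + k + ν (p + x) - (p + x)) / qn q (p + k + 1 + ν (p + x) - (p + x))) =
      qn q (k + 1 - m) / qn q (k + 1) := by
    intro m
    induction m with
    | zero =>
      intro _
      have p1 := (prd_qn_pos h0 (u := k + 1) (by omega)).ne'
      simp [div_self p1]
    | succ m ih =>
      intro hm
      rw [Finset.prod_range_succ, ih (by omega), hp (p + m) (by omega)]
      have a1 : p + k + 0 - (p + m) = k + 1 - (m + 1) := by omega
      have a2 : p + k + 1 + 0 - (p + m) = k + 1 - m := by omega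
      have p1 := (prd_qn_pos h0 (u := k + 1 - m) (by omega)).ne'
      have p2 := (prd_qn_pos h0 (u := k + 1) (by omega)).ne'
      rw [a1, a2]
      field_simp
  rw [h1 k le_rfl]
  have a1 : k + 1 - k = 1 := by omega
  have a2 : p + k + 1 - p = k + 1 := by omega
  rw [a1, a2, prd_qn_one, one_div]

theorem PD_eq {q : ℝ} (h0 : 0 < q) (A n p : ℕ) (ν : ℕ → ℕ) (hν : Antitone ν) (hp : ∀ i, p ≤ i → ν i = 0) (hpn : p ≤ n)
    (hA : ν 0 + 1 ≤ A) :
    PD q A n ν = HD q p ν * qf q (A + n - 1) * qn q A *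
      (∏ i ∈ range p, ∏ s ∈ range (ν i), qn q (A + i - (s + 1))) /
        (qf q A * qf q (n - p) * ∏ i ∈ range p, qn q (n + ν i - i)) := by
  induction n, hpn using Nat.le_induction with
  | base => exact prd_base h0 A p ν hν hA
  | succ n hpn ih =>
    rw [prd_step h0 A n p ν hν hp hpn hA, ih, prd_tele h0 n p ν hp hpn]
    have e1 : qf q (A + (n + 1) - 1) = qf q (A + n - 1) * qn q (A + n) := by
      rw [prd_qf_pred q (u := A + (n + 1) - 1) (by omega)]
      congr 2 <;> omega
    have e2 : qf q (n + 1 - p) = qf q (n - p) * qn q (n + 1 - p) := by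
      rw [prd_qf_pred q (u := n + 1 - p) (by omega), show n + 1 - p - 1 = n - p by omega]
    have p1 := (prd_qf_pos h0 A).ne'
    have p2 := (prd_qf_pos h0 (n - p)).ne'
    have p3 := (prd_qn_pos h0 (u := n + 1 - p) (by omega)).ne'
    have p4 : ∏ i ∈ range p, qn q (n + ν i - i) ≠ 0 := by
      refine (Finset.prod_pos fun i hi => prd_qn_pos h0 ?_).ne'
      rw [Finset.mem_range] at hi
      omega
    have p5 : ∏ i ∈ range p, qn q (n + 1 + ν i - i) ≠ 0 := by
      refine (Finset.prod_pos fun i hi => prd_qn_pos h0 ?_).ne'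
      rw [Finset.mem_range] at hi
      omega
    rw [e1, e2, Finset.prod_div_distrib]
    generalize (∏ i ∈ range p, ∏ s ∈ range (ν i), qn q (A + i - (s + 1))) = X
    field_simp

theorem HD_pos {q : ℝ} (h0 : 0 < q) (p : ℕ) (ν : ℕ → ℕ) : 0 < HD q p ν := by
  unfold HD
  refine mul_pos (Finset.prod_pos fun i _ => div_pos (prd_qf_pos h0 _) (prd_qf_pos h0 _)) ?_
  refine Finset.prod_pos fun j _ => Finset.prod_pos fun i hi => ?_
  rw [Finset.mem_range] at hi
  exact div_pos (prd_qn_pos h0 (by omega)) (prd_qn_pos h0 (by omega))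

end EllHall
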