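import Pool.Agent.Lib.MP_630b78_co.QO.Det
import Pool.Agent.Lib.MP_630b78_co.QO.Prd
import Pool.Agent.Lib.MP_630b78_co.QO.Mono

/-!
Module Cmp: the comparison of the two determinants.
-/

namespace EllHall

open Finset

private theorem cmp_qn_pos {q : ℝ} (h0 : 0 < q) {N : ℕ} (hN : 1 ≤ N) : 0 < qn q N := by
  unfold qn
  exact sum_pos (fun i _ => pow_pos h0 i) ⟨0, mem_range.2 hN⟩

private theorem cmp_qn_nonneg {q : ℝ} (h0 : 0 < q) (N : ℕ) : 0 ≤ qn q N := by
  unfold qn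
  exact sum_nonneg fun i _ => (pow_pos h0 i).le

private theorem cmp_qf_pos {q : ℝ} (h0 : 0 < q) (N : ℕ) : 0 < qf q N := by
  unfold qf
  exact prod_pos fun i _ => cmp_qn_pos h0 (Nat.succ_le_succ (Nat.zero_le i))

private theorem cmp_qf_split (q : ℝ) (N m : ℕ) (h : m ≤ N) :
    qf q N = (∏ t ∈ range m, qn q (N - t)) * qf q (N - m) := by
  induction m with
  | zero => simp
  | succ m ih =>
    rw [ih (by omega), prod_range_succ]
    obtain ⟨M, hM⟩ : ∃ M, N = m + 1 + M := ⟨N - (m + 1), by omega⟩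
    have h1 : N - m = M + 1 := by omega
    have h2 : N - (m + 1) = M := by omega
    rw [h1, h2]
    have h3 : qf q (M + 1) = qf q M * qn q (M + 1) := by
      unfold qf
      rw [prod_range_succ]
    rw [h3]
    ring

/-- the double product -/
private noncomputable def XX (q : ℝ) (p : ℕ) (ν : ℕ → ℕ) (N : ℕ) : ℝ :=
  ∏ i ∈ range p, ∏ s ∈ range (ν i), qn q (N + i - (s + 1))

private theorem XX_nonneg {q : ℝ} (h0 : 0 < q) (p : ℕ) (ν : ℕ → ℕ) (N : ℕ) : 0 ≤ XX q p ν N :=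
  prod_nonneg fun _ _ => prod_nonneg fun _ _ => cmp_qn_nonneg h0 _

private theorem cmp_exp {p n : ℕ} (ν : ℕ → ℕ) (hp : ∀ i, i < p ↔ 1 ≤ ν i) (hpn : p ≤ n) :
    ∑ i ∈ range n, (ν i + 1) * ν i / 2 = ∑ i ∈ range p, (ν i + 1) * ν i / 2 := by
  symm
  apply sum_subset (range_subset_range.2 hpn)
  intro i _ hi
  rw [mem_range] at hi
  have h1 : ν i = 0 := by
    by_contra h
    exact hi ((hp i).2 (by omega))
  simp [h1]

private theorem cmp_formula {q : ℝ} (h0 : 0 < q) (h1 : q ≠ 1) (p : ℕ) (ν : ℕ → ℕ) (hν : Antitone ν)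
    (hp : ∀ i, i < p ↔ 1 ≤ ν i) (A n : ℕ) (hpn : p ≤ n) (hA : ν 0 + 1 ≤ A) :
    SD q A n ν / qn q A = q ^ (∑ i ∈ range p, (ν i + 1) * ν i / 2) * HD q p ν * qf q (A + n - 1) * XX q p ν A /
      (qf q A * qf q (n - p) * ∏ i ∈ range p, qn q (n + ν i - i)) := by
  have hp' : ∀ i, p ≤ i → ν i = 0 := by
    intro i hi
    by_contra h
    have := (hp i).2 (by omega)
    omega
  have hA1 : qn q A ≠ 0 := (cmp_qn_pos h0 (by omega)).ne'
  rw [SD_eq h0 h1 A n ν hν hA, cmp_exp ν hp hpn, PD_eq h0 A n p ν hν hp' hpn hA]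
  have h2 : (∏ i ∈ range p, ∏ s ∈ range (ν i), qn q (A + i - (s + 1))) = XX q p ν A := rfl
  rw [h2]
  field_simp

private theorem cmp_den_pos {q : ℝ} (h0 : 0 < q) (p : ℕ) (ν : ℕ → ℕ) (n : ℕ) (hpn : p ≤ n) :
    0 < ∏ i ∈ range p, qn q (n + ν i - i) := by
  refine prod_pos fun i hi => cmp_qn_pos h0 ?_
  rw [mem_range] at hi
  omega

private theorem cmp_den_eq (q : ℝ) (p k : ℕ) (ν : ℕ → ℕ) (hk : ∑ i ∈ range p, ν i = k) (N : ℕ) (hN : k + p ≤ N) :
    ∏ i ∈ range p, qn q (N - k + ν i - i) = ∏ i ∈ range p, qn q (N - (k - ν i + i)) := by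
  refine prod_congr rfl fun i hi => ?_
  have h1 : ν i ≤ k := by
    rw [← hk]
    exact single_le_sum (f := ν) (fun _ _ => Nat.zero_le _) hi
  rw [mem_range] at hi
  congr 1
  omega

private theorem cmp_nu0 {p k : ℕ} (ν : ℕ → ℕ) (hp : ∀ i, i < p ↔ 1 ≤ ν i) (hk : ∑ i ∈ range p, ν i = k) (A : ℕ)
    (hA1 : 1 ≤ A) (hA : k + p ≤ A) : ν 0 + 1 ≤ A := by
  by_cases h : 0 < p
  · have h1 : ν 0 ≤ k := by
      rw [← hk]
      exact single_le_sum (f := ν) (fun _ _ => Nat.zero_le _) (mem_range.2 h)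
    omega
  · have h1 : ¬ 1 ≤ ν 0 := fun h2 => h ((hp 0).2 h2)
    omega

theorem SD_nonneg {q : ℝ} (h0 : 0 < q) (h1 : q ≠ 1) (A n p : ℕ) (ν : ℕ → ℕ) (hν : Antitone ν) (hp : ∀ i, i < p ↔ 1 ≤ ν i)
    (hpn : p ≤ n) (hA : 1 ≤ A) : 0 ≤ SD q A n ν := by
  by_cases h : A < ν 0 + 1
  · have h2 : 0 < p := (hp 0).2 (by omega)
    rw [SD_zero A n ν h (by omega)]
  · rw [not_lt] at h
    have h3 := cmp_formula h0 h1 p ν hν hp A n hpn h
    have h4 : 0 ≤ SD q A n ν / qn q A := by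
      rw [h3]
      have e1 := (HD_pos h0 p ν).le
      have e2 := (cmp_qf_pos h0 (A + n - 1)).le
      have e3 := (cmp_qf_pos h0 A).le
      have e4 := (cmp_qf_pos h0 (n - p)).le
      have e5 := (cmp_den_pos h0 p ν n hpn).le
      have e6 := XX_nonneg h0 p ν A
      positivity
    have h5 := cmp_qn_pos h0 hA
    have h6 : SD q A n ν = SD q A n ν / qn q A * qn q A := by field_simp
    rw [h6]
    exact mul_nonneg h4 h5.le

theorem SD_le {q : ℝ} (h0 : 0 < q) (h1 : q ≠ 1) (p k : ℕ) (ν : ℕ → ℕ) (hν : Antitone ν) (hp : ∀ i, i < p ↔ 1 ≤ ν i)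
    (hk : ∑ i ∈ range p, ν i = k) (A B : ℕ) (hA1 : 1 ≤ A) (hA : k + p ≤ A) (hAB : A ≤ B) :
    SD q B (A - k) ν / qn q B ≤ SD q A (B - k) ν / qn q A := by
  have hmono := mono_psi h0 p k ν hν hp hk A B hA hAB
  rw [cmp_formula h0 h1 p ν hν hp B (A - k) (by omega) (cmp_nu0 ν hp hk B (by omega) (by omega)),
    cmp_formula h0 h1 p ν hν hp A (B - k) (by omega) (cmp_nu0 ν hp hk A hA1 hA)]
  have e0 : B + (A - k) - 1 = A + (B - k) - 1 := by omega
  have dA := cmp_den_pos h0 p ν (A - k) (by omega)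
  have dB := cmp_den_pos h0 p ν (B - k) (by omega)
  rw [cmp_den_eq q p k ν hk A hA] at dA
  rw [cmp_den_eq q p k ν hk B (by omega)] at dB
  rw [e0, cmp_den_eq q p k ν hk A hA, cmp_den_eq q p k ν hk B (by omega)]
  have fA := cmp_qf_split q A (k + p) hA
  have fB := cmp_qf_split q B (k + p) (by omega)
  have nA : A - k - p = A - (k + p) := by omega
  have nB : B - k - p = B - (k + p) := by omega
  rw [nA, nB]
  have gA := cmp_qf_pos h0 (A - (k + p))
  have gB := cmp_qf_pos h0 (B - (k + p))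
  have pA := cmp_qf_pos h0 A
  have pB := cmp_qf_pos h0 B
  have hc : 0 ≤ q ^ (∑ i ∈ range p, (ν i + 1) * ν i / 2) * HD q p ν * qf q (A + (B - k) - 1) := by
    have e1 := (HD_pos h0 p ν).le
    have e2 := (cmp_qf_pos h0 (A + (B - k) - 1)).le
    positivity
  change (∏ t ∈ range (k + p), qn q (A - t)) * ((∏ i ∈ range p, qn q (B - (k - ν i + i))) * XX q p ν B) ≤
      (∏ t ∈ range (k + p), qn q (B - t)) * ((∏ i ∈ range p, qn q (A - (k - ν i + i))) * XX q p ν A) at hmono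
  generalize (∏ t ∈ range (k + p), qn q (A - t)) = PA at *
  generalize (∏ t ∈ range (k + p), qn q (B - t)) = PB at *
  generalize (∏ i ∈ range p, qn q (A - (k - ν i + i))) = YA at *
  generalize (∏ i ∈ range p, qn q (B - (k - ν i + i))) = YB at *
  generalize XX q p ν A = XA at *
  generalize XX q p ν B = XB at *
  generalize q ^ (∑ i ∈ range p, (ν i + 1) * ν i / 2) * HD q p ν * qf q (A + (B - k) - 1) = c at *
  generalize qf q A = FA at *
  generalize qf q B = FB at *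
  generalize qf q (A - (k + p)) = GA at *
  generalize qf q (B - (k + p)) = GB at *
  rw [div_le_div_iff₀ (by positivity) (by positivity), fA, fB]
  have h2 : 0 ≤ c * GA * GB := by positivity
  have h3 := mul_le_mul_of_nonneg_left hmono h2
  linarith

theorem SD_row {q : ℝ} (h0 : 0 < q) (h1 : q ≠ 1) (p k : ℕ) (ν : ℕ → ℕ) (hν : Antitone ν) (hp : ∀ i, i < p ↔ 1 ≤ ν i)
    (hp1 : p ≤ 1) (hk : ∑ i ∈ range p, ν i = k) (A B : ℕ) (hA1 : 1 ≤ A) (hA : k + p ≤ A) (hAB : A ≤ B) :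
    SD q B (A - k) ν / qn q B = SD q A (B - k) ν / qn q A := by
  have hmono := mono_eq (q := q) p k ν hp1 hk A B hA hAB
  rw [cmp_formula h0 h1 p ν hν hp B (A - k) (by omega) (cmp_nu0 ν hp hk B (by omega) (by omega)),
    cmp_formula h0 h1 p ν hν hp A (B - k) (by omega) (cmp_nu0 ν hp hk A hA1 hA)]
  have e0 : B + (A - k) - 1 = A + (B - k) - 1 := by omega
  have dA := cmp_den_pos h0 p ν (A - k) (by omega)
  have dB := cmp_den_pos h0 p ν (B - k) (by omega)
  rw [cmp_den_eq q p k ν hk A hA] at dA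
  rw [cmp_den_eq q p k ν hk B (by omega)] at dB
  rw [e0, cmp_den_eq q p k ν hk A hA, cmp_den_eq q p k ν hk B (by omega)]
  have fA := cmp_qf_split q A (k + p) hA
  have fB := cmp_qf_split q B (k + p) (by omega)
  have nA : A - k - p = A - (k + p) := by omega
  have nB : B - k - p = B - (k + p) := by omega
  rw [nA, nB]
  have gA := cmp_qf_pos h0 (A - (k + p))
  have gB := cmp_qf_pos h0 (B - (k + p))
  have pA := cmp_qf_pos h0 A
  have pB := cmp_qf_pos h0 B
  change (∏ t ∈ range (k + p), qn q (A - t)) * ((∏ i ∈ range p, qn q (B - (k - ν i + i))) * XX q p ν B) =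
      (∏ t ∈ range (k + p), qn q (B - t)) * ((∏ i ∈ range p, qn q (A - (k - ν i + i))) * XX q p ν A) at hmono
  generalize (∏ t ∈ range (k + p), qn q (A - t)) = PA at *
  generalize (∏ t ∈ range (k + p), qn q (B - t)) = PB at *
  generalize (∏ i ∈ range p, qn q (A - (k - ν i + i))) = YA at *
  generalize (∏ i ∈ range p, qn q (B - (k - ν i + i))) = YB at *
  generalize XX q p ν A = XA at *
  generalize XX q p ν B = XB at *
  generalize q ^ (∑ i ∈ range p, (ν i + 1) * ν i / 2) * HD q p ν * qf q (A + (B - k) - 1) = c at *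
  generalize qf q A = FA at *
  generalize qf q B = FB at *
  generalize qf q (A - (k + p)) = GA at *
  generalize qf q (B - (k + p)) = GB at *
  rw [div_eq_div_iff (by positivity) (by positivity), fA, fB]
  linear_combination (c * GA * GB) * hmono

end EllHall
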