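import Pool.Agent.Lib.MP_630b78_co.QO.EuA

/-!
Module WOne: the operators `W_(u,v)` on 1, and their commutator with the multiplication by a power sum.
-/

namespace EllHall

open MvPolynomial

variable {K : Type} [Field K] [CharZero K]

private theorem WOne_add {R : Type} [CommRing R] (f : ℕ → R) (p r : Polynomial R) :
    (p + r).sum (fun j c => c * f j) = p.sum (fun j c => c * f j) + r.sum (fun j c => c * f j) :=
  Polynomial.sum_add_index _ _ _ (fun _ => by simp) (fun _ _ _ => by ring)

private theorem WOne_mono {R : Type} [CommRing R] (f : ℕ → R) (n : ℕ) (b : R) :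
    (Polynomial.monomial n b).sum (fun j c => c * f j) = b * f n :=
  Polynomial.sum_monomial_index b _ (by simp)

private theorem WOne_zero {R : Type} [CommRing R] (f : ℕ → R) :
    (0 : Polynomial R).sum (fun j c => c * f j) = 0 := Polynomial.sum_zero_index _

private theorem WOne_C_mul {R : Type} [CommRing R] (f : ℕ → R) (a : R) (p : Polynomial R) :
    (Polynomial.C a * p).sum (fun j c => c * f j) = a * p.sum (fun j c => c * f j) := by
  induction p using Polynomial.induction_on' with
  | add p r hp hr => rw [mul_add, WOne_add, WOne_add, hp, hr, mul_add]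
  | monomial n b => rw [Polynomial.C_mul_monomial, WOne_mono, WOne_mono, mul_assoc]

private theorem WOne_shift {R : Type} [CommRing R] (f : ℕ → R) (k : ℕ) (p : Polynomial R) :
    (Polynomial.X ^ k * p).sum (fun j c => c * f j) = p.sum (fun j c => c * f (j + k)) := by
  induction p using Polynomial.induction_on' with
  | add p r hp hr => rw [mul_add, WOne_add, hp, hr, WOne_add (fun j => f (j + k))]
  | monomial n b => rw [Polynomial.X_pow_mul_monomial, WOne_mono, WOne_mono (fun j => f (j + k))]

private theorem WOne_apply (q t : K) (u v : ℕ) (g : MvPolynomial ℕ K) :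
    W q t u v g = (sh q t u g).sum (fun j c => c * ((-1) ^ (v + j) * eu q u (v + j))) := rfl

theorem W_one (q t : K) (u v : ℕ) : W q t u v 1 = (-1) ^ v * eu q u v := by
  rw [WOne_apply, map_one, ← Polynomial.C_1, ← Polynomial.monomial_zero_left,
    WOne_mono (fun j => (-1) ^ (v + j) * eu q u (v + j)), one_mul, add_zero]

theorem W_X_mul (q t : K) (u v n : ℕ) (g : MvPolynomial ℕ K) :
    W q t u v (X n * g) = X n * W q t u v g +
      ((1 - q ^ (n + 1)) * (1 - t ^ (u * (n + 1)))) • W q t u (v + n + 1) g := by
  have h : sh q t u (X n * g) = Polynomial.C (X n) * sh q t u g +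
      Polynomial.C (C ((1 - q ^ (n + 1)) * (1 - t ^ (u * (n + 1))))) * (Polynomial.X ^ (n + 1) * sh q t u g) := by
    have h1 : sh q t u (X n) = Polynomial.C (X n) +
        Polynomial.C (C ((1 - q ^ (n + 1)) * (1 - t ^ (u * (n + 1))))) * Polynomial.X ^ (n + 1) := by
      simp only [sh, aeval_X]
    rw [map_mul, h1]
    ring
  rw [WOne_apply, h, WOne_add (fun j => (-1) ^ (v + j) * eu q u (v + j)), WOne_C_mul (fun j => (-1) ^ (v + j) * eu q u (v + j)),
    WOne_C_mul (fun j => (-1) ^ (v + j) * eu q u (v + j)), WOne_shift (fun j => (-1) ^ (v + j) * eu q u (v + j)), ← WOne_apply,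
    MvPolynomial.smul_eq_C_mul, WOne_apply q t u (v + n + 1)]
  have e : ∀ j : ℕ, v + (j + (n + 1)) = v + n + 1 + j := fun j => by ring
  simp only [e]

theorem W_sum {ι : Type} (q t : K) (u v : ℕ) (g : MvPolynomial ℕ K) (s : Finset ι) (e : ι → ℕ) (c : ι → MvPolynomial ℕ K)
    (h : sh q t u g = ∑ i ∈ s, Polynomial.monomial (e i) (c i)) :
    W q t u v g = ∑ i ∈ s, c i * ((-1) ^ (v + e i) * eu q u (v + e i)) := by
  rw [WOne_apply, h]
  clear h
  classical
  induction s using Finset.induction_on with
  | empty => rw [Finset.sum_empty, Finset.sum_empty]; exact WOne_zero _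
  | insert a s ha ih =>
    rw [Finset.sum_insert ha, Finset.sum_insert ha, WOne_add (fun j => (-1) ^ (v + j) * eu q u (v + j)),
      WOne_mono (fun j => (-1) ^ (v + j) * eu q u (v + j)), ih]

theorem W_D0 (q t : K) : W q t 1 0 = D0 q t := by
  have h1 : sh q t 1 = shift q t := by
    apply MvPolynomial.algHom_ext
    intro k
    simp only [sh, shift, aeval_X, one_mul]
  have h2 : ph q 1 = AlgHom.id K _ := by
    apply MvPolynomial.algHom_ext
    intro k
    simp [ph, br]
  apply LinearMap.ext
  intro g
  show (sh q t 1 g).sum (fun j c => c * ((-1) ^ (0 + j) * eu q 1 (0 + j))) = (shift q t g).sum fun n c => c * ((-1) ^ n * ee K n)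
  rw [h1]
  simp only [zero_add, eu, h2, AlgHom.coe_id, id_eq]

end EllHall
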