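import Pool.Agent.Lib.MP_630b78_co.QO.EuS
import Pool.Agent.Lib.MP_630b78_co.QO.Base
import Pool.Agent.Lib.MP_630b78_co.QO.WOne

/-!
Module Comm: the commutator of two operators `W`.
-/

namespace EllHall

open MvPolynomial

variable {K : Type} [Field K] [CharZero K]

private theorem comm_WW_one {q t : K} (hqt : q * t = 1) (u k v l : ℕ) (h : 1 - q ^ (u + k) ≠ 0) :
    W q t u v (W q t k l 1) = ((-1) ^ (v + l) : K) • ∑ rs ∈ Finset.HasAntidiagonal.antidiagonal l,
      Fc q t u k rs.2 • (eu q u (v + rs.2) * eu q k rs.1) := by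
  have e1 : W q t k l 1 = ((-1) ^ l : K) • eu q k l := by
    rw [W_one, smul_eq_C_mul, map_pow, map_neg, map_one]
  rw [e1, map_smul, W_sum q t u v _ _ _ _ (sh_eu hqt u k l h), pow_add, mul_comm ((-1 : K) ^ v), mul_smul]
  congr 1
  rw [Finset.smul_sum]
  refine Finset.sum_congr rfl fun rs _ => ?_
  rw [smul_eq_C_mul, smul_eq_C_mul, smul_eq_C_mul]
  have e2 : ((-1 : MvPolynomial ℕ K) ^ rs.2) * (-1) ^ rs.2 = 1 := by
    rw [← mul_pow]; norm_num
  rw [map_mul, map_pow, map_pow, map_neg, map_one, pow_add]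
  linear_combination (C (Fc q t u k rs.2) * eu q k rs.1 * (-1) ^ v * eu q u (v + rs.2)) * e2

theorem W_comm {q t : K} (hqt : q * t = 1) (u k : ℕ) (h : 1 - q ^ (u + k) ≠ 0) (v l : ℕ) (g : MvPolynomial ℕ K) :
    W q t u v (W q t k l g) - W q t k l (W q t u v g) =
      ((1 - q ^ u) * (1 - q ^ k) / (1 - q ^ (u + k)) * (t ^ (u * l) - t ^ (k * v))) • W q t (u + k) (v + l) g := by
  have hone : ∀ v l : ℕ, W q t u v (W q t k l 1) - W q t k l (W q t u v 1) =
      ((1 - q ^ u) * (1 - q ^ k) / (1 - q ^ (u + k)) * (t ^ (u * l) - t ^ (k * v))) • W q t (u + k) (v + l) 1 := by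
    intro v l
    rw [comm_WW_one hqt u k v l h, comm_WW_one hqt k u l v (by rw [add_comm k u]; exact h), add_comm l v,
      ← smul_sub, base_id hqt u k v l h, W_one, smul_comm]
    congr 1
    rw [smul_eq_C_mul, map_pow, map_neg, map_one]
  generalize (1 - q ^ u) * (1 - q ^ k) / (1 - q ^ (u + k)) = A at hone ⊢
  induction g using MvPolynomial.induction_on generalizing v l with
  | C a =>
    have e1 : (C a : MvPolynomial ℕ K) = a • 1 := by rw [smul_eq_C_mul, mul_one]
    rw [e1, map_smul, map_smul, map_smul, map_smul, map_smul, ← smul_sub, hone v l, smul_comm]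
  | add p r hp hr =>
    rw [map_add, map_add, map_add, map_add, map_add, smul_add, ← hp v l, ← hr v l]
    abel
  | mul_X p n hp =>
    rw [mul_comm p (X n)]
    have h1 := hp v l
    have h2 := hp (v + n + 1) l
    have h3 := hp v (l + n + 1)
    rw [W_X_mul, W_X_mul, W_X_mul, map_add, map_add, map_smul, map_smul, W_X_mul, W_X_mul]
    rw [show v + n + 1 + l = v + l + n + 1 by omega] at h2
    rw [show v + (l + n + 1) = v + l + n + 1 by omega] at h3
    simp only [smul_eq_C_mul, map_mul, map_sub, map_one, map_pow] at h1 h2 h3 ⊢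
    linear_combination (X n) * h1 + (1 - C q ^ (n + 1)) * (1 - C t ^ (u * (n + 1))) * h2 +
      (1 - C q ^ (n + 1)) * (1 - C t ^ (k * (n + 1))) * h3

end EllHall
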