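import Pool.Agent.Lib.MP_630b78_co.QO.Defs

/-!
Module Cst: the constants `cc q m n` on the curve `q t = 1`.
-/

namespace EllHall

private theorem Cst_qn (q : ℝ) (m : ℕ) : (1 - q) * qn q m = 1 - q ^ m := by
  unfold qn
  exact mul_neg_geom_sum q m

private theorem Cst_qn_pos {q : ℝ} (h0 : 0 < q) {m : ℕ} (hm : 1 ≤ m) : 0 < qn q m := by
  unfold qn
  refine Finset.sum_pos (fun i _ => pow_pos h0 i) ?_
  exact Finset.nonempty_range_iff.2 (by omega)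

private theorem Cst_qn_one (q : ℝ) : qn q 1 = 1 := by
  unfold qn
  simp

private theorem Cst_ex_a (k l u v d : ℕ) (hk : 1 ≤ k) (hl : 1 ≤ l) (hu : 1 ≤ u)
    (hv : 1 ≤ v ∨ (u = 1 ∧ v = 0)) (hkl : Nat.gcd k l = 1) (huv : Nat.gcd u v = 1) (hd : Nat.gcd (k + u) (l + v) = d)
    (h : u * l = k * v + d) (hd1 : 1 ≤ d) : ex (k + u) (l + v) = ex k l + ex u v + 2 * (u * l - 1) := by
  unfold ex
  rw [hkl, huv, hd]
  obtain ⟨k, rfl⟩ : ∃ k', k = k' + 1 := ⟨k - 1, by omega⟩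
  obtain ⟨l, rfl⟩ : ∃ l', l = l' + 1 := ⟨l - 1, by omega⟩
  obtain ⟨d, rfl⟩ : ∃ d', d = d' + 1 := ⟨d - 1, by omega⟩
  rcases hv with hv | ⟨rfl, rfl⟩
  · obtain ⟨u, rfl⟩ : ∃ u', u = u' + 1 := ⟨u - 1, by omega⟩
    obtain ⟨v, rfl⟩ : ∃ v', v = v' + 1 := ⟨v - 1, by omega⟩
    have e1 : k + 1 + (u + 1) - 1 = k + u + 1 := by omega
    have e2 : l + 1 + (v + 1) - 1 = l + v + 1 := by omega
    have e3 : (u + 1) * (l + 1) - 1 = u * l + u + l := by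
      have : (u + 1) * (l + 1) = u * l + u + l + 1 := by ring
      omega
    rw [e1, e2, e3]
    simp only [Nat.add_sub_cancel]
    have e4 : (k + u + 1) * (l + v + 1) + (d + 1) - 1 = (k + u + 1) * (l + v + 1) + d := by omega
    rw [e4]
    nlinarith
  · have e1 : k + 1 + 1 - 1 = k + 1 := by omega
    have e2 : l + 1 + 0 - 1 = l := by omega
    have e3 : 1 * (l + 1) - 1 = l := by omega
    rw [e1, e2, e3]
    have e4 : (k + 1) * l + (d + 1) - 1 = (k + 1) * l + d := by omega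
    rw [e4]
    simp only [Nat.add_sub_cancel]
    have e5 : l = d := by omega
    subst e5
    ring_nf

private theorem Cst_ex_b (u v : ℕ) (hu : 1 ≤ u) (hv : 1 ≤ v ∨ (u = 1 ∧ v = 0))
    (huv : Nat.gcd u v = 1) (hd : Nat.gcd u (v + 1) = u) : ex u (v + 1) = ex u v + 2 * (u - 1) := by
  unfold ex
  rw [huv, hd]
  obtain ⟨u, rfl⟩ : ∃ u', u = u' + 1 := ⟨u - 1, by omega⟩
  simp only [Nat.add_sub_cancel]
  have e4 : u * v + (u + 1) - 1 = u * v + u := by omega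
  rw [e4]
  rcases hv with hv | ⟨h1, rfl⟩
  · obtain ⟨v, rfl⟩ : ∃ v', v = v' + 1 := ⟨v - 1, by omega⟩
    simp only [Nat.add_sub_cancel]
    ring
  · have : u = 0 := by omega
    subst this
    simp

theorem cst_a {q : ℝ} (h0 : 0 < q) (h1 : q ≠ 1) (k l u v d : ℕ) (hk : 1 ≤ k) (hl : 1 ≤ l) (hu : 1 ≤ u)
    (hv : 1 ≤ v ∨ (u = 1 ∧ v = 0)) (hkl : Nat.gcd k l = 1) (huv : Nat.gcd u v = 1) (hd : Nat.gcd (k + u) (l + v) = d)
    (h : u * l = k * v + d) (hd1 : 1 ≤ d) :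
    (1 - q) * (1 - q⁻¹) * cc q (k + u) (l + v) = cc q k l * cc q u v *
      ((1 - q ^ k) * (1 - q ^ u) / (1 - q ^ (k + u)) * (q⁻¹ ^ (k * v) - q⁻¹ ^ (u * l))) := by
  have hex := Cst_ex_a k l u v d hk hl hu hv hkl huv hd h hd1
  have hq1 : 1 - q ≠ 0 := sub_ne_zero.2 (Ne.symm h1)
  unfold cc
  rw [hex, hkl, huv, hd, Cst_qn_one, pow_add (-1 : ℝ), pow_add (Real.sqrt q), pow_add (Real.sqrt q), pow_mul (Real.sqrt q),
    Real.sq_sqrt h0.le, ← Cst_qn q k, ← Cst_qn q u, ← Cst_qn q (k + u)]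
  have hs : 0 < Real.sqrt q := Real.sqrt_pos.2 h0
  obtain ⟨s1, hs1⟩ : ∃ s1, s1 = Real.sqrt q ^ ex k l := ⟨_, rfl⟩
  obtain ⟨s2, hs2⟩ : ∃ s2, s2 = Real.sqrt q ^ ex u v := ⟨_, rfl⟩
  have hs1p : s1 ≠ 0 := by rw [hs1]; positivity
  have hs2p : s2 ≠ 0 := by rw [hs2]; positivity
  rw [← hs1, ← hs2]
  obtain ⟨a, ha⟩ : ∃ a, a = qn q k := ⟨_, rfl⟩
  obtain ⟨b, hb⟩ : ∃ b, b = qn q u := ⟨_, rfl⟩
  obtain ⟨c, hc⟩ : ∃ c, c = qn q (k + u) := ⟨_, rfl⟩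
  have hap : a ≠ 0 := by rw [ha]; exact (Cst_qn_pos h0 hk).ne'
  have hbp : b ≠ 0 := by rw [hb]; exact (Cst_qn_pos h0 hu).ne'
  have hcp : c ≠ 0 := by rw [hc]; exact (Cst_qn_pos h0 (by omega)).ne'
  rw [← ha, ← hb, ← hc]
  obtain ⟨P, hP⟩ : ∃ P, P = q ^ d := ⟨_, rfl⟩
  obtain ⟨R, hR⟩ : ∃ R, R = q ^ (k * v) := ⟨_, rfl⟩
  have hPp : P ≠ 0 := by rw [hP]; positivity
  have hRp : R ≠ 0 := by rw [hR]; positivity
  have hD : qn q d = (1 - P) / (1 - q) := by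
    rw [eq_div_iff hq1, mul_comm, Cst_qn, hP]
  have hQ : q ^ (u * l - 1) = R * P / q := by
    rw [eq_div_iff h0.ne', ← pow_succ, hR, hP, ← pow_add, ← h]
    congr 1
    have : 1 ≤ u * l := by omega
    omega
  have h3 : q⁻¹ ^ (k * v) = R⁻¹ := by rw [hR, inv_pow]
  have h4 : q⁻¹ ^ (u * l) = (R * P)⁻¹ := by rw [hR, hP, ← pow_add, ← h, inv_pow]
  rw [hD, hQ, h3, h4]
  have hq0 : q ≠ 0 := h0.ne'
  field_simp
  ring

theorem cst_b {q : ℝ} (h0 : 0 < q) (h1 : q ≠ 1) (u v : ℕ) (hu : 1 ≤ u) (hv : 1 ≤ v ∨ (u = 1 ∧ v = 0))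
    (huv : Nat.gcd u v = 1) (hd : Nat.gcd u (v + 1) = u) :
    (1 - q) * (1 - q⁻¹) * cc q u (v + 1) = - (cc q u v * ((1 - q) * (1 - q⁻¹ ^ u))) := by
  have hex := Cst_ex_b u v hu hv huv hd
  have hq1 : 1 - q ≠ 0 := sub_ne_zero.2 (Ne.symm h1)
  have hup := Cst_qn_pos h0 hu
  unfold cc
  rw [hex, huv, hd, Cst_qn_one, pow_add (-1 : ℝ), pow_add (Real.sqrt q), pow_mul (Real.sqrt q), Real.sq_sqrt h0.le,
    div_self hup.ne']
  have hs : 0 < Real.sqrt q := Real.sqrt_pos.2 h0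
  obtain ⟨s2, hs2⟩ : ∃ s2, s2 = Real.sqrt q ^ ex u v := ⟨_, rfl⟩
  have hs2p : s2 ≠ 0 := by rw [hs2]; positivity
  rw [← hs2]
  obtain ⟨U, hU⟩ : ∃ U, U = q ^ u := ⟨_, rfl⟩
  have hUp : U ≠ 0 := by rw [hU]; positivity
  have hD : qn q u = (1 - U) / (1 - q) := by
    rw [eq_div_iff hq1, mul_comm, Cst_qn, hU]
  have hU1 : 1 - U ≠ 0 := by
    intro h2
    rw [hD, h2, zero_div] at hup
    exact lt_irrefl _ hup
  have hQ : q ^ (u - 1) = U / q := by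
    rw [eq_div_iff h0.ne', ← pow_succ, hU]
    congr 1
    omega
  rw [hD, hQ, inv_pow, ← hU]
  have hq0 : q ≠ 0 := h0.ne'
  field_simp
  ring

end EllHall
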