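import Pool.Agent.Lib.MP_630b78_co.EH.Main

/-!
# The curve `q t = 1`: definitions

Vertex operators `W_(u,v)`; on the curve `q t = 1` the operators `Q_(u,v)` are multiples of them.
-/

namespace EllHall

open MvPolynomial

section defs

variable {K : Type} [Field K]

/-- `∑_(i<u) q^(i (k+1))`, the power sum `p_(k+1)` of `1, q, ..., q^(u-1)` -/
def br (q : K) (u k : ℕ) : K := ∑ i ∈ Finset.range u, q ^ (i * (k + 1))

/-- the `q`-number `[u] = 1 + q + ... + q^(u-1)` -/
def qn (q : K) (u : ℕ) : K := ∑ i ∈ Finset.range u, q ^ i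

/-- the `q`-factorial `[u]! = [1][2]...[u]` -/
def qf (q : K) (u : ℕ) : K := ∏ i ∈ Finset.range u, qn q (i + 1)

/-- `g ↦ g[X [u]]`, that is `p_k ↦ p_k (1 + q^k + ... + q^((u-1) k))` -/
noncomputable def ph (q : K) (u : ℕ) : MvPolynomial ℕ K →ₐ[K] MvPolynomial ℕ K := aeval fun k => C (br q u k) * X k

/-- `e_r[X [u]]` -/
noncomputable def eu (q : K) (u r : ℕ) : MvPolynomial ℕ K := ph q u (ee K r)

/-- `e_r(1, q, ..., q^(u-1))` -/
noncomputable def ge (q : K) (u r : ℕ) : K := aeval (fun k => br q u k) (ee K r)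

/-- `e_z(1, q, ..., q^(u-1))` for an integer `z`, zero for negative `z` -/
noncomputable def gz (q : K) (u : ℕ) (z : ℤ) : K := if 0 ≤ z then ge q u z.toNat else 0

/-- the shift `p_k ↦ p_k + (1 - q^k)(1 - t^(u k)) w^k` -/
noncomputable def sh (q t : K) (u : ℕ) : MvPolynomial ℕ K →ₐ[K] Polynomial (MvPolynomial ℕ K) :=
  aeval fun k => Polynomial.C (X k) +
    Polynomial.C (C ((1 - q ^ (k + 1)) * (1 - t ^ (u * (k + 1))))) * Polynomial.X ^ (k + 1)

/-- The operator `W_(u,v)`: the coefficient of `z^v` in `g[X + (1-q)(1-t^u)/z] ∑_n e_n[X [u]] (-z)^n`. -/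
noncomputable def W (q t : K) (u v : ℕ) : Module.End K (MvPolynomial ℕ K) where
  toFun g := (sh q t u g).sum fun j c => c * ((-1) ^ (v + j) * eu q u (v + j))
  map_add' g f := by
    rw [map_add]
    exact Polynomial.sum_add_index _ _ _ (fun _ => by simp) (fun _ _ _ => by ring)
  map_smul' a g := by
    rw [map_smul, RingHom.id_apply]
    rw [Polynomial.sum_smul_index' _ _ _ (fun _ => by simp), Polynomial.sum, Polynomial.sum, Finset.smul_sum]
    exact Finset.sum_congr rfl fun n _ => by rw [smul_mul_assoc]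

/-- the coefficients of `(1-x)(1-q^k t^u x)/((1-t^u x)(1-q^k x))`, see `sh_eu` -/
noncomputable def Fc (q t : K) (u k h : ℕ) : K :=
  if h = 0 then 1 else (1 - q ^ u) * (1 - q ^ k) / (1 - q ^ (u + k)) * (t ^ (u * h) - q ^ (k * h))

end defs

section real

/-- the exponent `(m-1)(n-1) + gcd(m,n) - 1` -/
def ex (m n : ℕ) : ℕ := (m - 1) * (n - 1) + Nat.gcd m n - 1

/-- the factor with `T_(m,n) = c W_(m,n)` on the curve `q t = 1` -/
noncomputable def cc (q : ℝ) (m n : ℕ) : ℝ :=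
  (-1) ^ n * (Real.sqrt q ^ ex m n)⁻¹ * (qn q (Nat.gcd m n) / qn q m)

/-- the determinant `det (e_(ν_i + 1 - i + j)(1, ..., q^(A-1)))` with `n` rows -/
noncomputable def SD (q : ℝ) (A n : ℕ) (ν : ℕ → ℕ) : ℝ :=
  Matrix.det (Matrix.of fun i j : Fin n => gz q A ((ν i : ℤ) + 1 - (i : ℤ) + (j : ℤ)))

/-- the value of `SD` without the power of `q` -/
noncomputable def PD (q : ℝ) (A n : ℕ) (ν : ℕ → ℕ) : ℝ :=
  (∏ i ∈ Finset.range n, (qf q (n - 1 - i) * qf q (A + i)) / (qf q (ν i + n - i) * qf q (A + i - 1 - ν i))) *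
    ∏ j ∈ Finset.range n, ∏ i ∈ Finset.range j, qn q (ν i - ν j + (j - i)) / qn q (j - i)

end real

end EllHall
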