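import Pool.Agent.Lib.MP_630b78_co.QO.Ge

/-!
Module Det: the determinant `SD` as a product.
-/

namespace EllHall

open Finset

private theorem tri2 (x : ℕ) : 2 * (x * (x - 1) / 2) = x * (x - 1) :=
  Nat.mul_div_cancel' (Nat.even_mul_pred_self x).two_dvd

private theorem tri2s (x : ℕ) : 2 * (x * (x + 1) / 2) = x * (x + 1) :=
  Nat.mul_div_cancel' (Nat.even_mul_succ_self x).two_dvd

private theorem triexp (r m j : ℕ) :
    r * (r - 1) / 2 + (m + j) * (r + m) = (r + m) * (r + m - 1) / 2 + m * (m + 1) / 2 + (r + m) * j := by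
  have h1 := tri2 r
  have h2 := tri2 (r + m)
  have h3 := tri2s m
  have e1 : r * (r - 1) + r = r * r := by
    cases r with
    | zero => rfl
    | succ r => simp only [Nat.add_sub_cancel]; ring
  have e2 : (r + m) * (r + m - 1) + (r + m) = (r + m) * (r + m) := by
    generalize r + m = x
    cases x with
    | zero => rfl
    | succ r => simp only [Nat.add_sub_cancel]; ring
  nlinarith

private theorem dqn_mul {q : ℝ} (u : ℕ) : (1 - q) * qn q u = 1 - q ^ u := by
  unfold qn
  exact mul_neg_geom_sum q u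

private theorem dqn_eq {q : ℝ} (h1 : q ≠ 1) (u : ℕ) : qn q u = (1 - q)⁻¹ * (1 - q ^ u) := by
  rw [← dqn_mul, ← mul_assoc, inv_mul_cancel₀ (sub_ne_zero.mpr h1.symm), one_mul]

private theorem dqn_pos {q : ℝ} (h0 : 0 < q) (u : ℕ) : 0 < qn q (u + 1) := by
  unfold qn
  exact Finset.sum_pos (fun i _ => pow_pos h0 i) (by simp)

private theorem dqf_pos {q : ℝ} (h0 : 0 < q) (u : ℕ) : 0 < qf q u := by
  unfold qf
  exact Finset.prod_pos fun i _ => dqn_pos h0 i

private theorem dqf_split (q : ℝ) (r m : ℕ) : qf q (r + m) = qf q r * ∏ s ∈ range m, qn q (r + m - s) := by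
  induction m with
  | zero => simp
  | succ m ih =>
    have e : qf q (r + (m + 1)) = qf q (r + m) * qn q (r + m + 1) := by
      rw [← add_assoc]
      unfold qf
      rw [prod_range_succ]
    rw [e, ih, prod_range_succ', mul_assoc]
    congr 2
    refine prod_congr rfl fun s _ => ?_
    congr 1
    omega

/-- the weight of a row -/
private noncomputable def rw' (q : ℝ) (A N l : ℕ) : ℝ :=
  q ^ (l * (l - 1) / 2) / (q ^ (N * l) * qf q l * qf q (A + N - l))

/-- the value in column `j` -/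
private noncomputable def cv (q : ℝ) (A N j : ℕ) (x : ℝ) : ℝ :=
  qf q A * q ^ ((N - j) * (N - j + 1) / 2) * (∏ s ∈ range (N - j), ((1 - q)⁻¹ * (1 - (q ^ s)⁻¹ * x))) *
    ∏ s ∈ range j, ((1 - q)⁻¹ * (x - q ^ (A + N - s)))

private theorem entry {q : ℝ} (h0 : 0 < q) (h1 : q ≠ 1) (A N l j : ℕ) (hl : l ≤ A + N) (hj : j ≤ N) :
    gz q A ((l : ℤ) - N + j) = rw' q A N l * cv q A N j (q ^ l) := by
  obtain ⟨m, rfl⟩ : ∃ m, N = m + j := ⟨N - j, by omega⟩
  have hm : m + j - j = m := by omega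
  by_cases ha : l < m
  · have hz : ¬ (0 : ℤ) ≤ (l : ℤ) - ((m + j : ℕ) : ℤ) + j := by push_cast; omega
    rw [gz, if_neg hz, cv, hm]
    have : ∏ s ∈ range m, ((1 - q)⁻¹ * (1 - (q ^ s)⁻¹ * q ^ l)) = 0 := by
      refine prod_eq_zero (mem_range.mpr ha) ?_
      rw [inv_mul_cancel₀ (pow_ne_zero _ h0.ne')]
      simp
    rw [this]
    simp
  · obtain ⟨r, rfl⟩ : ∃ r, l = r + m := ⟨l - m, by omega⟩
    have hz : ((r + m : ℕ) : ℤ) - ((m + j : ℕ) : ℤ) + j = (r : ℤ) := by push_cast; ring
    rw [hz, gz, if_pos (Int.natCast_nonneg r), Int.toNat_natCast]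
    by_cases hA : A < r
    · rw [ge_large q A r hA, cv, hm]
      have : ∏ s ∈ range j, ((1 - q)⁻¹ * (q ^ (r + m) - q ^ (A + (m + j) - s))) = 0 := by
        refine prod_eq_zero (i := A + (m + j) - (r + m)) (mem_range.mpr (by omega)) ?_
        have e : A + (m + j) - (A + (m + j) - (r + m)) = r + m := by omega
        rw [e, sub_self, mul_zero]
      rw [this]
      simp
    · obtain ⟨B, rfl⟩ : ∃ B, A = B + r := ⟨A - r, by omega⟩
      rw [ge_eq h0 _ _ (by omega), rw', cv, hm]
      have e1 : B + r - r = B := by omega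
      have e2 : B + r + (m + j) - (r + m) = B + j := by omega
      rw [e1, e2, dqf_split q r m, dqf_split q B j]
      have p1 : ∏ s ∈ range m, ((1 - q)⁻¹ * (1 - (q ^ s)⁻¹ * q ^ (r + m))) =
          ∏ s ∈ range m, qn q (r + m - s) := by
        refine prod_congr rfl fun s hs => ?_
        have hs' := mem_range.mp hs
        rw [dqn_eq h1]
        congr 2
        rw [pow_sub₀ q h0.ne' (by omega), mul_comm]
      have p2 : ∏ s ∈ range j, ((1 - q)⁻¹ * (q ^ (r + m) - q ^ (B + r + (m + j) - s))) =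
          (q ^ (r + m)) ^ j * ∏ s ∈ range j, qn q (B + j - s) := by
        have : (q ^ (r + m)) ^ j = ∏ _s ∈ range j, q ^ (r + m) := by simp
        rw [this, ← prod_mul_distrib]
        refine prod_congr rfl fun s hs => ?_
        have hs' := mem_range.mp hs
        rw [dqn_eq h1]
        have e3 : B + r + (m + j) - s = (r + m) + (B + j - s) := by omega
        rw [e3, pow_add q (r + m) (B + j - s)]
        ring
      rw [p1, p2]
      have n1 : (∏ s ∈ range m, qn q (r + m - s)) ≠ 0 := by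
        refine prod_ne_zero_iff.mpr fun s hs => ?_
        have hs' := mem_range.mp hs
        obtain ⟨k, hk⟩ : ∃ k, r + m - s = k + 1 := ⟨r + m - s - 1, by omega⟩
        rw [hk]
        exact (dqn_pos h0 k).ne'
      have n2 : (∏ s ∈ range j, qn q (B + j - s)) ≠ 0 := by
        refine prod_ne_zero_iff.mpr fun s hs => ?_
        have hs' := mem_range.mp hs
        obtain ⟨k, hk⟩ : ∃ k, B + j - s = k + 1 := ⟨B + j - s - 1, by omega⟩
        rw [hk]
        exact (dqn_pos h0 k).ne'
      have n3 := (dqf_pos h0 r).ne'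
      have n4 := (dqf_pos h0 B).ne'
      have n5 : q ^ ((m + j) * (r + m)) ≠ 0 := pow_ne_zero _ h0.ne'
      have ex : q ^ (r * (r - 1) / 2) * q ^ ((m + j) * (r + m)) =
          q ^ ((r + m) * (r + m - 1) / 2) * q ^ (m * (m + 1) / 2) * (q ^ (r + m)) ^ j := by
        rw [← pow_mul, ← pow_add, ← pow_add, ← pow_add, triexp]
      generalize (∏ s ∈ range m, qn q (r + m - s)) = P1 at *
      generalize (∏ s ∈ range j, qn q (B + j - s)) = P2 at *
      field_simp
      linear_combination qf q (B + r) * ex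

private noncomputable def cp (q : ℝ) (A N j : ℕ) : Polynomial ℝ :=
  Polynomial.C (qf q A * q ^ ((N - j) * (N - j + 1) / 2)) *
    (∏ s ∈ range (N - j), (Polynomial.C (1 - q)⁻¹ * (1 - Polynomial.C (q ^ s)⁻¹ * Polynomial.X))) *
    ∏ s ∈ range j, (Polynomial.C (1 - q)⁻¹ * (Polynomial.X - Polynomial.C (q ^ (A + N - s))))

private theorem cp_eval (q : ℝ) (A N j : ℕ) (x : ℝ) : (cp q A N j).eval x = cv q A N j x := by
  simp [cp, cv, Polynomial.eval_prod]

private theorem cp_deg (q : ℝ) (A N j : ℕ) (hj : j ≤ N) : (cp q A N j).natDegree < N + 1 := by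
  have a1 : ∀ s, (Polynomial.C (1 - q)⁻¹ * (1 - Polynomial.C (q ^ s)⁻¹ * Polynomial.X)).natDegree ≤ 1 := by
    intro s
    refine (Polynomial.natDegree_C_mul_le _ _).trans ((Polynomial.natDegree_sub_le _ _).trans (max_le (by simp) ?_))
    exact (Polynomial.natDegree_C_mul_le _ _).trans Polynomial.natDegree_X_le
  have a2 : ∀ s, (Polynomial.C (1 - q)⁻¹ * (Polynomial.X - Polynomial.C (q ^ (A + N - s)))).natDegree ≤ 1 := by
    intro s
    refine (Polynomial.natDegree_C_mul_le _ _).trans ((Polynomial.natDegree_sub_le _ _).trans (max_le ?_ (by simp)))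
    exact Polynomial.natDegree_X_le
  unfold cp
  have b1 := Polynomial.natDegree_prod_le (range (N - j))
    (fun s => (Polynomial.C (1 - q)⁻¹ * (1 - Polynomial.C (q ^ s)⁻¹ * Polynomial.X)))
  have b2 := Polynomial.natDegree_prod_le (range j)
    (fun s => (Polynomial.C (1 - q)⁻¹ * (Polynomial.X - Polynomial.C (q ^ (A + N - s)))))
  have c1 : ∑ i ∈ range (N - j), (Polynomial.C (1 - q)⁻¹ * (1 - Polynomial.C (q ^ i)⁻¹ * Polynomial.X)).natDegree ≤
      N - j := by
    refine (Finset.sum_le_sum fun i _ => a1 i).trans ?_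
    simp
  have c2 : ∑ i ∈ range j, (Polynomial.C (1 - q)⁻¹ * (Polynomial.X - Polynomial.C (q ^ (A + N - i)))).natDegree ≤
      j := by
    refine (Finset.sum_le_sum fun i _ => a2 i).trans ?_
    simp
  have d1 := (Polynomial.natDegree_mul_le (p := Polynomial.C (qf q A * q ^ ((N - j) * (N - j + 1) / 2)) *
    (∏ s ∈ range (N - j), (Polynomial.C (1 - q)⁻¹ * (1 - Polynomial.C (q ^ s)⁻¹ * Polynomial.X))))
    (q := ∏ s ∈ range j, (Polynomial.C (1 - q)⁻¹ * (Polynomial.X - Polynomial.C (q ^ (A + N - s))))))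
  have d2 := Polynomial.natDegree_C_mul_le (qf q A * q ^ ((N - j) * (N - j + 1) / 2))
    (∏ s ∈ range (N - j), (Polynomial.C (1 - q)⁻¹ * (1 - Polynomial.C (q ^ s)⁻¹ * Polynomial.X)))
  omega

private theorem det_gen {q : ℝ} (h0 : 0 < q) (h1 : q ≠ 1) (A N : ℕ) (l : Fin (N + 1) → ℕ) (hl : ∀ i, l i ≤ A + N) :
    Matrix.det (Matrix.of fun i j : Fin (N + 1) => gz q A ((l i : ℤ) - N + ((j : ℕ) : ℤ))) =
      (∏ i, rw' q A N (l i)) * ((∏ i : Fin (N + 1), ∏ j ∈ Ioi i, (q ^ l j - q ^ l i)) *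
        Matrix.det (Matrix.of fun i j : Fin (N + 1) => (cp q A N j).coeff i)) := by
  have e1 : (Matrix.of fun i j : Fin (N + 1) => gz q A ((l i : ℤ) - N + ((j : ℕ) : ℤ))) =
      Matrix.of fun i j : Fin (N + 1) => rw' q A N (l i) *
        (Matrix.of (fun i j : Fin (N + 1) => (cp q A N j).eval (q ^ l i)) i j) := by
    ext i j
    simp only [Matrix.of_apply]
    rw [cp_eval, entry h0 h1 A N (l i) j (hl i) (by have := j.2; omega)]
  have e2 : (Matrix.of (fun i j : Fin (N + 1) => (cp q A N j).eval (q ^ l i))) =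
      Matrix.vandermonde (fun i => q ^ l i) * Matrix.of (fun i j : Fin (N + 1) => (cp q A N j).coeff i) := by
    ext i j
    rw [Matrix.of_apply, Matrix.mul_apply,
      Polynomial.eval_eq_sum_range' (cp_deg q A N j (by have := j.2; omega)), Finset.sum_range]
    refine sum_congr rfl fun k _ => ?_
    rw [Matrix.vandermonde_apply, Matrix.of_apply, mul_comm]
  rw [e1, Matrix.det_mul_column, e2, Matrix.det_mul, Matrix.det_vandermonde]

private theorem prod_Ioi (n : ℕ) (g : ℕ → ℕ → ℝ) :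
    ∏ i : Fin n, ∏ j ∈ Ioi i, g i j = ∏ j ∈ range n, ∏ i ∈ range j, g i j := by
  have e1 : ∀ i : Fin n, ∏ j ∈ Ioi i, g i j = ∏ j : Fin n, if i < j then g i j else 1 := by
    intro i
    rw [← prod_filter]
    refine prod_congr ?_ fun _ _ => rfl
    ext j
    simp
  rw [prod_congr rfl fun i _ => e1 i, prod_comm, Finset.prod_range]
  refine prod_congr rfl fun j _ => ?_
  have e2 : ∏ i : Fin n, (if i < j then g i j else 1) = ∏ i ∈ range n, if i < (j : ℕ) then g i j else 1 := by
    rw [Finset.prod_range]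
    refine prod_congr rfl fun i _ => ?_
    simp only [Fin.lt_def]
  rw [e2, ← prod_filter]
  refine prod_congr ?_ fun _ _ => rfl
  ext i
  have := j.2
  simp only [mem_filter, mem_range]
  omega

theorem SD_eq {q : ℝ} (h0 : 0 < q) (h1 : q ≠ 1) (A n : ℕ) (ν : ℕ → ℕ) (hν : Antitone ν) (hA : ν 0 + 1 ≤ A) :
    SD q A n ν = q ^ (∑ i ∈ range n, (ν i + 1) * ν i / 2) * PD q A n ν := by
  rcases Nat.eq_zero_or_pos n with rfl | hn
  · simp [SD, PD]
  obtain ⟨N, rfl⟩ : ∃ N, n = N + 1 := ⟨n - 1, by omega⟩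
  have hνA : ∀ i, ν i + 1 ≤ A := fun i => (Nat.add_le_add_right (hν (Nat.zero_le i)) 1).trans hA
  -- the two evaluations
  have D1 := det_gen h0 h1 A N (fun i => ν i + (N + 1) - i) (fun i => by
    have := hνA i
    have := i.2
    show ν i + (N + 1) - i ≤ A + N
    omega)
  have D0 := det_gen h0 h1 A N (fun i => N - i) (fun i => by
    show N - i ≤ A + N
    omega)
  have L1 : SD q A (N + 1) ν = Matrix.det (Matrix.of fun i j : Fin (N + 1) =>
      gz q A (((ν i + (N + 1) - i : ℕ) : ℤ) - N + ((j : ℕ) : ℤ))) := by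
    unfold SD
    congr 2
    ext i j
    have := i.2
    congr 1
    omega
  have L0 : Matrix.det (Matrix.of fun i j : Fin (N + 1) =>
      gz q A (((N - i : ℕ) : ℤ) - N + ((j : ℕ) : ℤ))) = 1 := by
    rw [Matrix.det_of_isUpperTriangular]
    · refine prod_eq_one fun i _ => ?_
      have hi := i.2
      rw [Matrix.of_apply]
      have e : (((N - i : ℕ) : ℤ) - N + ((i : ℕ) : ℤ)) = 0 := by omega
      rw [e, gz, if_pos le_rfl]
      exact ge_zero q A
    · intro i j hij
      have hi := i.2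
      have hij' : (j : ℕ) < (i : ℕ) := hij
      rw [Matrix.of_apply, gz, if_neg]
      omega
  rw [← L1] at D1
  rw [L0] at D0
  rw [prod_Ioi (N + 1) (fun i j => q ^ (ν j + (N + 1) - j) - q ^ (ν i + (N + 1) - i))] at D1
  rw [prod_Ioi (N + 1) (fun i j => q ^ (N - j) - q ^ (N - i))] at D0
  rw [Fin.prod_univ_eq_prod_range (fun i => rw' q A N (ν i + (N + 1) - i)) (N + 1)] at D1
  rw [Fin.prod_univ_eq_prod_range (fun i => rw' q A N (N - i)) (N + 1)] at D0
  generalize Matrix.det (Matrix.of fun i j : Fin (N + 1) => (cp q A N j).coeff i) = K at D0 D1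
  have R1 : (∏ i ∈ range (N + 1), rw' q A N (ν i + (N + 1) - i)) * (∏ j ∈ range (N + 1), ∏ i ∈ range j,
      (q ^ (ν j + (N + 1) - j) - q ^ (ν i + (N + 1) - i))) =
      (q ^ (∑ i ∈ range (N + 1), (ν i + 1) * ν i / 2) * PD q A (N + 1) ν) *
      ((∏ i ∈ range (N + 1), rw' q A N (N - i)) * (∏ j ∈ range (N + 1), ∏ i ∈ range j,
      (q ^ (N - j) - q ^ (N - i)))) := by
    unfold PD
    rw [← Finset.prod_pow_eq_pow_sum]
    simp only [← prod_mul_distrib]
    refine prod_congr rfl fun j hj => ?_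
    have hj' := mem_range.mp hj
    have hνj := hνA j
    have V : ∏ i ∈ range j, (q ^ (ν j + (N + 1) - j) - q ^ (ν i + (N + 1) - i)) =
        q ^ ((ν j + 1) * j) * ((∏ i ∈ range j, qn q (ν i - ν j + (j - i)) / qn q (j - i)) *
          ∏ i ∈ range j, (q ^ (N - j) - q ^ (N - i))) := by
      have : q ^ ((ν j + 1) * j) = ∏ _i ∈ range j, q ^ (ν j + 1) := by simp [pow_mul]
      rw [this, ← prod_mul_distrib, ← prod_mul_distrib]
      refine prod_congr rfl fun i hi => ?_
      have hi' := mem_range.mp hi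
      have hνij := hν hi'.le
      obtain ⟨k, hk⟩ : ∃ k, j - i = k + 1 := ⟨j - i - 1, by omega⟩
      have hq := (dqn_pos h0 k).ne'
      have a1 : ν i + (N + 1) - i = (ν j + (N + 1) - j) + (ν i - ν j + (j - i)) := by omega
      have a2 : N - i = (N - j) + (j - i) := by omega
      have a3 : ν j + (N + 1) - j = (ν j + 1) + (N - j) := by omega
      have b1 : q ^ (ν j + (N + 1) - j) - q ^ (ν i + (N + 1) - i) =
          q ^ (ν j + 1) * q ^ (N - j) * ((1 - q) * qn q (ν i - ν j + (j - i))) := by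
        rw [dqn_mul, a1, pow_add q (ν j + (N + 1) - j), a3, pow_add q (ν j + 1)]
        ring
      have b2 : q ^ (N - j) - q ^ (N - i) = q ^ (N - j) * ((1 - q) * qn q (j - i)) := by
        rw [dqn_mul, a2, pow_add q (N - j)]
        ring
      rw [b1, b2, hk]
      field_simp
    rw [V]
    have W : rw' q A N (ν j + (N + 1) - j) * q ^ ((ν j + 1) * j) =
        q ^ ((ν j + 1) * ν j / 2) * (qf q (N + 1 - 1 - j) * qf q (A + j) /
          (qf q (ν j + (N + 1) - j) * qf q (A + j - 1 - ν j))) * rw' q A N (N - j) := by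
      unfold rw'
      obtain ⟨b, hb⟩ : ∃ b, N = b + j := ⟨N - j, by omega⟩
      have c1 : N + 1 - 1 - j = b := by omega
      have c2 : A + N - (N - j) = A + j := by omega
      have c3 : A + N - (ν j + (N + 1) - j) = A + j - 1 - ν j := by omega
      have c4 : N - j = b := by omega
      have c5 : ν j + (N + 1) - j = b + (ν j + 1) := by omega
      rw [c2, c3, c1, c4, c5]
      have n1 := (dqf_pos h0 b).ne'
      have n2 := (dqf_pos h0 (A + j)).ne'
      have n3 := (dqf_pos h0 (b + (ν j + 1))).ne'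
      have n4 := (dqf_pos h0 (A + j - 1 - ν j)).ne'
      have n5 : q ^ (N * b) ≠ 0 := pow_ne_zero _ h0.ne'
      have n6 : q ^ (N * (b + (ν j + 1))) ≠ 0 := pow_ne_zero _ h0.ne'
      have ex : q ^ ((b + (ν j + 1)) * (b + (ν j + 1) - 1) / 2) * q ^ ((ν j + 1) * j) * q ^ (N * b) =
          q ^ ((ν j + 1) * ν j / 2) * q ^ (b * (b - 1) / 2) * q ^ (N * (b + (ν j + 1))) := by
        rw [← pow_add, ← pow_add, ← pow_add, ← pow_add]
        congr 1
        have t1 := tri2 (b + (ν j + 1))
        have t2 := tri2 (ν j + 1)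
        have t3 := tri2 b
        have t4 : ν j + 1 - 1 = ν j := by omega
        have t5 : b + (ν j + 1) - 1 = b + ν j := by omega
        have t6 : b * (b - 1) + b = b * b := by
          cases b with
          | zero => rfl
          | succ r => simp only [Nat.add_sub_cancel]; ring
        rw [t4] at t2
        rw [t5] at t1
        rw [t5, hb]
        nlinarith
      field_simp
      linear_combination ex
    linear_combination ((∏ i ∈ range j, qn q (ν i - ν j + (j - i)) / qn q (j - i)) *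
          ∏ i ∈ range j, (q ^ (N - j) - q ^ (N - i))) * W
  rw [D1, ← mul_assoc, R1]
  linear_combination -(q ^ (∑ i ∈ range (N + 1), (ν i + 1) * ν i / 2) * PD q A (N + 1) ν) * D0

theorem SD_zero {q : ℝ} (A n : ℕ) (ν : ℕ → ℕ) (hA : A < ν 0 + 1) (hn : 1 ≤ n) : SD q A n ν = 0 := by
  unfold SD
  refine Matrix.det_eq_zero_of_row_eq_zero ⟨0, hn⟩ fun j => ?_
  rw [Matrix.of_apply]
  have e : ((ν ((⟨0, hn⟩ : Fin n) : ℕ) : ℤ) + 1 - (((⟨0, hn⟩ : Fin n) : ℕ) : ℤ) + ((j : ℕ) : ℤ)) =
      ((ν 0 + 1 + j : ℕ) : ℤ) := by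
    push_cast
    simp
  rw [e, gz, if_pos (Int.natCast_nonneg _), Int.toNat_natCast]
  exact ge_large q A _ (by omega)

end EllHall
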