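import Pool.Agent.Lib.MP_630b78_co.QO.Defs

/-!
Module EuA: the functions `e_r[X [u]]`: addition formula.
-/

namespace EllHall

open MvPolynomial

variable {K : Type} [Field K] [CharZero K]

theorem eu_zero (q : K) (u : ℕ) : eu q u 0 = 1 := by
  unfold eu
  rw [ee, map_one]

private theorem br_add (q : K) (u k i : ℕ) : br q (u + k) i = br q u i + q ^ (u * (i + 1)) * br q k i := by
  unfold br
  rw [Finset.sum_range_add, Finset.mul_sum]
  congr 1
  refine Finset.sum_congr rfl fun j _ => ?_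
  rw [← pow_add]
  congr 1
  ring

private theorem eu_succ (q : K) (u n : ℕ) : ((n + 1 : ℕ) : K) • eu q u (n + 1) =
    ∑ i ∈ Finset.range (n + 1), ((-1) ^ i * (C (br q u i) * X i)) * eu q u (n - i) := by
  have h := congrArg (ph q u) (ee_succ (K := K) n)
  rw [map_smul, map_sum] at h
  unfold eu
  rw [h]
  refine Finset.sum_congr rfl fun i _ => ?_
  rw [map_mul, map_mul, map_pow, map_neg, map_one]
  have e : ph q u (X i) = C (br q u i) * X i := by
    unfold ph
    rw [aeval_X]
  rw [e]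

private theorem uniq {s a b : ℕ → MvPolynomial ℕ K} (h0 : a 0 = b 0)
    (ha : ∀ n : ℕ, ((n + 1 : ℕ) : K) • a (n + 1) = ∑ i ∈ Finset.range (n + 1), s i * a (n - i))
    (hb : ∀ n : ℕ, ((n + 1 : ℕ) : K) • b (n + 1) = ∑ i ∈ Finset.range (n + 1), s i * b (n - i)) (n : ℕ) : a n = b n := by
  induction n using Nat.strong_induction_on with
  | _ n ih =>
    rcases n with _ | n
    · exact h0
    · have hc : ((n + 1 : ℕ) : K) ≠ 0 := Nat.cast_ne_zero.mpr (Nat.succ_ne_zero n)
      apply smul_right_injective (MvPolynomial ℕ K) hc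
      show ((n + 1 : ℕ) : K) • a (n + 1) = ((n + 1 : ℕ) : K) • b (n + 1)
      rw [ha, hb]
      exact Finset.sum_congr rfl fun i _ => by rw [ih (n - i) (by omega)]

private theorem dser {s a : ℕ → MvPolynomial ℕ K}
    (ha : ∀ n : ℕ, ((n + 1 : ℕ) : K) • a (n + 1) = ∑ i ∈ Finset.range (n + 1), s i * a (n - i)) :
    PowerSeries.derivative (MvPolynomial ℕ K) (PowerSeries.mk a) = PowerSeries.mk s * PowerSeries.mk a := by
  ext1 m
  rw [PowerSeries.coeff_derivative, PowerSeries.coeff_mul, Finset.Nat.sum_antidiagonal_eq_sum_range_succ_mk]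
  simp only [PowerSeries.coeff_mk]
  rw [← ha m, MvPolynomial.smul_eq_C_mul, mul_comm, map_natCast]
  push_cast
  ring

private theorem conv_rec {s s' a b : ℕ → MvPolynomial ℕ K}
    (ha : ∀ n : ℕ, ((n + 1 : ℕ) : K) • a (n + 1) = ∑ i ∈ Finset.range (n + 1), s i * a (n - i))
    (hb : ∀ n : ℕ, ((n + 1 : ℕ) : K) • b (n + 1) = ∑ i ∈ Finset.range (n + 1), s' i * b (n - i)) (n : ℕ) :
    ((n + 1 : ℕ) : K) • (∑ rs ∈ Finset.HasAntidiagonal.antidiagonal (n + 1), a rs.1 * b rs.2) =
      ∑ i ∈ Finset.range (n + 1), (s i + s' i) * (∑ rs ∈ Finset.HasAntidiagonal.antidiagonal (n - i), a rs.1 * b rs.2) := by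
  have hd : PowerSeries.derivative (MvPolynomial ℕ K) (PowerSeries.mk a * PowerSeries.mk b) =
      (PowerSeries.mk s + PowerSeries.mk s') * (PowerSeries.mk a * PowerSeries.mk b) := by
    rw [Derivation.leibniz, dser ha, dser hb]
    simp only [smul_eq_mul]
    ring
  have hc := congrArg (PowerSeries.coeff n) hd
  rw [PowerSeries.coeff_derivative, PowerSeries.coeff_mul, PowerSeries.coeff_mul, Finset.Nat.sum_antidiagonal_eq_sum_range_succ_mk
    (fun p => (PowerSeries.coeff p.1) (PowerSeries.mk s + PowerSeries.mk s') * (PowerSeries.coeff p.2) (PowerSeries.mk a * PowerSeries.mk b)) n] at hc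
  simp only [map_add, PowerSeries.coeff_mul, PowerSeries.coeff_mk] at hc
  rw [← hc, MvPolynomial.smul_eq_C_mul, mul_comm, map_natCast]
  push_cast
  ring

theorem eu_add (q : K) (u k N : ℕ) :
    eu q (u + k) N = ∑ rs ∈ Finset.HasAntidiagonal.antidiagonal N, q ^ (u * rs.2) • (eu q u rs.1 * eu q k rs.2) := by
  have hb : ∀ n : ℕ, ((n + 1 : ℕ) : K) • (q ^ (u * (n + 1)) • eu q k (n + 1)) =
      ∑ i ∈ Finset.range (n + 1), ((-1) ^ i * (C (q ^ (u * (i + 1)) * br q k i) * X i)) * (q ^ (u * (n - i)) • eu q k (n - i)) := by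
    intro n
    rw [smul_comm, eu_succ, Finset.smul_sum]
    refine Finset.sum_congr rfl fun i hi => ?_
    have hi' : i ≤ n := Nat.lt_succ_iff.mp (Finset.mem_range.mp hi)
    obtain ⟨j, rfl⟩ := Nat.exists_eq_add_of_le hi'
    have e : i + j - i = j := by omega
    rw [e, MvPolynomial.smul_eq_C_mul, MvPolynomial.smul_eq_C_mul, C_mul]
    have e2 : (C (q ^ (u * (i + j + 1))) : MvPolynomial ℕ K) = C (q ^ (u * (i + 1))) * C (q ^ (u * j)) := by
      rw [← C_mul, ← pow_add]
      congr 2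
      ring
    rw [e2]
    ring
  have h1 := conv_rec (s := fun i => (-1) ^ i * (C (br q u i) * X i)) (s' := fun i => (-1) ^ i * (C (q ^ (u * (i + 1)) * br q k i) * X i))
    (a := fun n => eu q u n) (b := fun n => q ^ (u * n) • eu q k n) (fun n => eu_succ q u n) hb
  have h2 := fun n => eu_succ q (u + k) n
  have h3 : eu q (u + k) N = ∑ rs ∈ Finset.HasAntidiagonal.antidiagonal N, eu q u rs.1 * (q ^ (u * rs.2) • eu q k rs.2) := by
    refine uniq (s := fun i => (-1) ^ i * (C (br q (u + k) i) * X i)) (a := fun N => eu q (u + k) N)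
      (b := fun N => ∑ rs ∈ Finset.HasAntidiagonal.antidiagonal N, eu q u rs.1 * (q ^ (u * rs.2) • eu q k rs.2)) ?_ h2 ?_ N
    · simp [eu_zero]
    · intro n
      rw [h1 n]
      refine Finset.sum_congr rfl fun i _ => ?_
      rw [br_add, C_add]
      ring
  rw [h3]
  exact Finset.sum_congr rfl fun rs _ => by rw [mul_smul_comm]

end EllHall
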