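import Pool.Agent.Lib.MP_630b78_co.QO.Defs

/-!
Module EuS: the shift of `e_l[X [k]]`.
-/

namespace EllHall

open MvPolynomial

variable {K : Type} [Field K] [CharZero K]

/-- `e` is the sequence of elementary functions with the power sums `p` (`p i` is the power sum of degree `i + 1`) -/
private def EuSN {R : Type} [CommRing R] (p e : ℕ → R) : Prop :=
  e 0 = 1 ∧ PowerSeries.derivative R (PowerSeries.mk e) =
    (PowerSeries.mk fun i => (-1) ^ i * p i) * PowerSeries.mk e

private theorem eusn_of {R : Type} [CommRing R] {p e : ℕ → R} (h0 : e 0 = 1)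
    (h : ∀ n : ℕ, e (n + 1) * ((n : R) + 1) = ∑ i ∈ Finset.range (n + 1), (-1) ^ i * p i * e (n - i)) : EuSN p e := by
  refine ⟨h0, ?_⟩
  ext m
  rw [PowerSeries.coeff_derivative, PowerSeries.coeff_mul, Finset.Nat.sum_antidiagonal_eq_sum_range_succ_mk]
  simp only [PowerSeries.coeff_mk]
  exact h m

private theorem eusn_rec {R : Type} [CommRing R] {p e : ℕ → R} (h : EuSN p e) (n : ℕ) :
    e (n + 1) * ((n : R) + 1) = ∑ i ∈ Finset.range (n + 1), (-1) ^ i * p i * e (n - i) := by
  have h1 := congrArg (PowerSeries.coeff n) h.2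
  rw [PowerSeries.coeff_derivative, PowerSeries.coeff_mul, Finset.Nat.sum_antidiagonal_eq_sum_range_succ_mk] at h1
  simpa only [PowerSeries.coeff_mk] using h1

private theorem eusn_uniq {R : Type} [CommRing R] [Algebra K R] {p e e' : ℕ → R} (h : EuSN p e) (h' : EuSN p e') (n : ℕ) :
    e n = e' n := by
  induction n using Nat.strong_induction_on with
  | _ n ih =>
    rcases n with _ | n
    · rw [h.1, h'.1]
    · have h1 := eusn_rec h n
      have h2 := eusn_rec h' n
      have h3 : e (n + 1) * ((n : R) + 1) = e' (n + 1) * ((n : R) + 1) := by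
        rw [h1, h2]
        refine Finset.sum_congr rfl fun i _ => ?_
        rw [ih (n - i) (by omega)]
      have hu : IsUnit ((n : R) + 1) := by
        have h4 : ((n : R) + 1) = algebraMap K R ((n : K) + 1) := by
          rw [map_add, map_natCast, map_one]
        rw [h4]
        exact (IsUnit.mk0 _ (Nat.cast_add_one_ne_zero n)).map (algebraMap K R)
      exact hu.mul_right_cancel h3

private theorem eusn_conv {R : Type} [CommRing R] {p e p' e' : ℕ → R} (h : EuSN p e) (h' : EuSN p' e') :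
    EuSN (fun i => p i + p' i) (fun N => ∑ rs ∈ Finset.HasAntidiagonal.antidiagonal N, e rs.1 * e' rs.2) := by
  refine ⟨?_, ?_⟩
  · simp [h.1, h'.1]
  · have h1 : (PowerSeries.mk fun N => ∑ rs ∈ Finset.HasAntidiagonal.antidiagonal N, e rs.1 * e' rs.2) =
        PowerSeries.mk e * PowerSeries.mk e' := by
      ext N
      rw [PowerSeries.coeff_mul]
      simp only [PowerSeries.coeff_mk]
    have h2 : (PowerSeries.mk fun i => (-1) ^ i * (p i + p' i)) =
        (PowerSeries.mk fun i => (-1) ^ i * p i) + PowerSeries.mk fun i => (-1) ^ i * p' i := by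
      ext i
      rw [map_add]
      simp only [PowerSeries.coeff_mk]
      ring
    rw [h1, h2, Derivation.leibniz, h.2, h'.2]
    simp only [smul_eq_mul]
    ring

private theorem eusn_hom {R : Type} [CommRing R] [Algebra K R] (Φ : MvPolynomial ℕ K →ₐ[K] R) :
    EuSN (fun i => Φ (X i)) (fun n => Φ (ee K n)) := by
  refine eusn_of ?_ fun n => ?_
  · have h0 : ee K 0 = 1 := by rw [ee]
    rw [h0, map_one]
  · have h1 := congrArg Φ (ee_succ (K := K) n)
    rw [map_smul, Algebra.smul_def, map_natCast, map_sum] at h1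
    push_cast at h1
    rw [mul_comm, h1]
    refine Finset.sum_congr rfl fun i _ => ?_
    rw [map_mul, map_mul, map_pow, map_neg, map_one]

private theorem eus_refl (n : ℕ) (f : ℕ → K) :
    ∑ i ∈ Finset.range n, f (n - i) = ∑ i ∈ Finset.range n, f (i + 1) := by
  rw [← Finset.sum_range_reflect (fun i => f (i + 1)) n]
  refine Finset.sum_congr rfl fun i hi => ?_
  have := Finset.mem_range.mp hi
  congr 1
  omega

private theorem eus_sum (a b : K) (n : ℕ) :
    ∑ i ∈ Finset.range n, (1 - a ^ (i + 1)) * (1 - b ^ (i + 1)) * (a ^ (n - i) - b ^ (n - i)) =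
      (∑ i ∈ Finset.range n, a ^ (i + 1)) * (1 - b ^ (n + 1)) - (∑ i ∈ Finset.range n, b ^ (i + 1)) * (1 - a ^ (n + 1)) -
        (n : K) * (a ^ (n + 1) - b ^ (n + 1)) := by
  have h1 : ∀ i ∈ Finset.range n, (1 - a ^ (i + 1)) * (1 - b ^ (i + 1)) * (a ^ (n - i) - b ^ (n - i)) =
      a ^ (n - i) - b ^ (n - i) + (a ^ (i + 1) * b ^ (n - i) - a ^ (n - i) * b ^ (i + 1)) +
        (a ^ (n + 1) * b ^ (i + 1) - b ^ (n + 1) * a ^ (i + 1)) - (a ^ (n + 1) - b ^ (n + 1)) := by
    intro i hi
    have hi' := Finset.mem_range.mp hi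
    have e1 : n + 1 = (i + 1) + (n - i) := by omega
    rw [e1, pow_add a, pow_add b]
    ring
  rw [Finset.sum_congr rfl h1, Finset.sum_sub_distrib, Finset.sum_add_distrib, Finset.sum_add_distrib,
    Finset.sum_sub_distrib, Finset.sum_sub_distrib, Finset.sum_sub_distrib, eus_refl n (fun j => a ^ j),
    eus_refl n (fun j => b ^ j)]
  have h2 : ∑ i ∈ Finset.range n, a ^ (i + 1) * b ^ (n - i) = ∑ i ∈ Finset.range n, a ^ (n - i) * b ^ (i + 1) := by
    rw [← Finset.sum_range_reflect (fun i => a ^ (n - i) * b ^ (i + 1)) n]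
    refine Finset.sum_congr rfl fun i hi => ?_
    have := Finset.mem_range.mp hi
    have e1 : n - (n - 1 - i) = i + 1 := by omega
    have e2 : n - 1 - i + 1 = n - i := by omega
    simp only [e1, e2]
  rw [h2, ← Finset.mul_sum, ← Finset.mul_sum]
  simp only [Finset.sum_const, Finset.card_range, nsmul_eq_mul]
  ring

private theorem eus_Fc {q t : K} (hqt : q * t = 1) (u k n : ℕ) (h : 1 - q ^ (u + k) ≠ 0) :
    ((n : K) + 1) * Fc q t u k (n + 1) =
      - ∑ i ∈ Finset.range (n + 1), (1 - t ^ (u * (i + 1))) * (1 - q ^ (k * (i + 1))) * Fc q t u k (n - i) := by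
  obtain ⟨α, hα⟩ : ∃ α, α = (1 - q ^ u) * (1 - q ^ k) / (1 - q ^ (u + k)) := ⟨_, rfl⟩
  obtain ⟨a, ha⟩ : ∃ a, a = t ^ u := ⟨_, rfl⟩
  obtain ⟨b, hb⟩ : ∃ b, b = q ^ k := ⟨_, rfl⟩
  have haq : a * q ^ u = 1 := by
    rw [ha, ← mul_pow, mul_comm t q, hqt, one_pow]
  have hab : α * (a - b) = (a - 1) * (1 - b) := by
    have h1 : a - b = a * (1 - q ^ (u + k)) := by
      rw [pow_add, mul_sub, mul_one, ← mul_assoc, haq, one_mul, hb]
    rw [h1, hα]
    have h2 : (1 - q ^ u) * (1 - q ^ k) / (1 - q ^ (u + k)) * (a * (1 - q ^ (u + k))) =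
        (a - a * q ^ u) * (1 - q ^ k) := by
      field_simp
    rw [h2, haq, hb]
  have hF : ∀ j, 1 ≤ j → Fc q t u k j = α * (a ^ j - b ^ j) := by
    intro j hj
    unfold Fc
    rw [if_neg (by omega), hα, ha, hb, pow_mul, pow_mul]
  have hF0 : Fc q t u k 0 = 1 := by
    unfold Fc
    rw [if_pos rfl]
  have hta : ∀ j, t ^ (u * j) = a ^ j := fun j => by rw [ha, pow_mul]
  have hqb : ∀ j, q ^ (k * j) = b ^ j := fun j => by rw [hb, pow_mul]
  simp only [hta, hqb]
  rw [Finset.sum_range_succ, Nat.sub_self, hF0, hF (n + 1) (by omega), mul_one]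
  have h3 : ∑ i ∈ Finset.range n, (1 - a ^ (i + 1)) * (1 - b ^ (i + 1)) * Fc q t u k (n - i) =
      α * ∑ i ∈ Finset.range n, (1 - a ^ (i + 1)) * (1 - b ^ (i + 1)) * (a ^ (n - i) - b ^ (n - i)) := by
    rw [Finset.mul_sum]
    refine Finset.sum_congr rfl fun i hi => ?_
    have hi' := Finset.mem_range.mp hi
    rw [hF (n - i) (by omega)]
    ring
  rw [h3, eus_sum]
  have hA : (1 - a) * (1 + ∑ i ∈ Finset.range n, a ^ (i + 1)) = 1 - a ^ (n + 1) := by
    have h4 := geom_sum_mul_neg a (n + 1)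
    rw [Finset.sum_range_succ'] at h4
    rw [← h4]
    ring
  have hB : (1 - b) * (1 + ∑ i ∈ Finset.range n, b ^ (i + 1)) = 1 - b ^ (n + 1) := by
    have h4 := geom_sum_mul_neg b (n + 1)
    rw [Finset.sum_range_succ'] at h4
    rw [← h4]
    ring
  set A := ∑ i ∈ Finset.range n, a ^ (i + 1)
  set B := ∑ i ∈ Finset.range n, b ^ (i + 1)
  have ha2 : a ^ (n + 1) = 1 - (1 - a) * (1 + A) := by rw [hA]; ring
  have hb2 : b ^ (n + 1) = 1 - (1 - b) * (1 + B) := by rw [hB]; ring
  rw [ha2, hb2]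
  linear_combination ((1 + A) * (1 + B)) * hab

private theorem eus_br (q : K) (k i : ℕ) : br q k i * (1 - q ^ (i + 1)) = 1 - q ^ (k * (i + 1)) := by
  have h := geom_sum_mul_neg (q ^ (i + 1)) k
  unfold br
  rw [mul_comm k (i + 1), pow_mul, ← h]
  congr 1
  refine Finset.sum_congr rfl fun j _ => ?_
  rw [mul_comm j, pow_mul]

private theorem eusn_fc {q t : K} (hqt : q * t = 1) (u k : ℕ) (h : 1 - q ^ (u + k) ≠ 0) :
    EuSN (R := Polynomial (MvPolynomial ℕ K))
      (fun i => Polynomial.C (C (br q k i * ((1 - q ^ (i + 1)) * (1 - t ^ (u * (i + 1)))))) * Polynomial.X ^ (i + 1))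
      (fun s => Polynomial.monomial s (C ((-1) ^ s * Fc q t u k s))) := by
  refine eusn_of ?_ fun n => ?_
  · have hF0 : Fc q t u k 0 = 1 := by
      unfold Fc
      rw [if_pos rfl]
    rw [hF0, pow_zero, mul_one, C_1, Polynomial.monomial_zero_one]
  · have h1 : ∀ i ∈ Finset.range (n + 1), (-1 : Polynomial (MvPolynomial ℕ K)) ^ i *
        (Polynomial.C (C (br q k i * ((1 - q ^ (i + 1)) * (1 - t ^ (u * (i + 1)))))) * Polynomial.X ^ (i + 1)) *
        Polynomial.monomial (n - i) (C ((-1) ^ (n - i) * Fc q t u k (n - i))) =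
        Polynomial.monomial (n + 1) (C ((-1) ^ n * ((1 - t ^ (u * (i + 1))) * (1 - q ^ (k * (i + 1))) *
          Fc q t u k (n - i)))) := by
      intro i hi
      have hi' : i ≤ n := by
        have := Finset.mem_range.mp hi
        omega
      have e1 : (-1 : Polynomial (MvPolynomial ℕ K)) ^ i = Polynomial.C (C ((-1 : K) ^ i)) := by
        simp
      have e2 : i + 1 + (n - i) = n + 1 := by omega
      rw [e1, Polynomial.C_mul_X_pow_eq_monomial, Polynomial.C_mul_monomial, Polynomial.monomial_mul_monomial, e2,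
        ← C_mul, ← C_mul, ← eus_br q k i]
      congr 2
      have e3 : (-1 : K) ^ n = (-1) ^ i * (-1) ^ (n - i) := by
        rw [← pow_add]
        congr 1
        omega
      rw [e3]
      ring
    rw [Finset.sum_congr rfl h1, ← map_sum, ← map_sum, ← Finset.mul_sum]
    have h2 := eus_Fc hqt u k n h
    have h3 : ∑ i ∈ Finset.range (n + 1), (1 - t ^ (u * (i + 1))) * (1 - q ^ (k * (i + 1))) * Fc q t u k (n - i) =
        - (((n : K) + 1) * Fc q t u k (n + 1)) := by
      rw [h2, neg_neg]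
    rw [h3]
    have h4 : ((n : Polynomial (MvPolynomial ℕ K)) + 1) = Polynomial.C (C ((n : K) + 1)) := by
      simp
    rw [h4, mul_comm, Polynomial.C_mul_monomial, ← C_mul]
    congr 2
    ring

theorem sh_eu {q t : K} (hqt : q * t = 1) (u k l : ℕ) (h : 1 - q ^ (u + k) ≠ 0) :
    sh q t u (eu q k l) = ∑ rs ∈ Finset.HasAntidiagonal.antidiagonal l,
      Polynomial.monomial rs.2 (((-1) ^ rs.2 * Fc q t u k rs.2) • eu q k rs.1) := by
  have h1 := eusn_hom (K := K) ((sh q t u).comp (ph q k))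
  have h2 : EuSN (fun i => Polynomial.C (ph q k (X i))) (fun n => Polynomial.C (eu q k n)) := by
    have h3 := eusn_hom (K := K) ((Polynomial.CAlgHom (R := K) (A := MvPolynomial ℕ K)).comp (ph q k))
    exact h3
  have h4 := eusn_conv h2 (eusn_fc hqt u k h)
  have h5 : (fun i => ((sh q t u).comp (ph q k)) (X i)) = fun i => Polynomial.C (ph q k (X i)) +
      Polynomial.C (C (br q k i * ((1 - q ^ (i + 1)) * (1 - t ^ (u * (i + 1)))))) * Polynomial.X ^ (i + 1) := by
    funext i
    have e1 : ph q k (X i) = C (br q k i) * X i := by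
      unfold ph
      rw [aeval_X]
    have e2 : sh q t u (C (br q k i)) = Polynomial.C (C (br q k i)) := by
      rw [← MvPolynomial.algebraMap_eq, AlgHom.commutes]
      rfl
    have e3 : sh q t u (X i) = Polynomial.C (X i) +
        Polynomial.C (C ((1 - q ^ (i + 1)) * (1 - t ^ (u * (i + 1))))) * Polynomial.X ^ (i + 1) := by
      unfold sh
      rw [aeval_X]
    rw [AlgHom.comp_apply, e1, map_mul, e2, e3, mul_add, ← mul_assoc, ← Polynomial.C_mul, ← Polynomial.C_mul, ← C_mul]
  rw [h5] at h1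
  have h6 := eusn_uniq (K := K) h1 h4 l
  change sh q t u (ph q k (ee K l)) = _
  refine h6.trans (Finset.sum_congr rfl fun rs _ => ?_)
  rw [Polynomial.C_mul_monomial, MvPolynomial.smul_eq_C_mul, mul_comm]

end EllHall
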