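import Pool.Agent.Lib.MP_630b78_co.QO.Defs

/-!
Module Ge: `e_r(1, q, ..., q^(A-1))` is a Gaussian binomial.
-/

namespace EllHall

open MvPolynomial

private theorem gerec (q : ℝ) (A n : ℕ) : ((n : ℝ) + 1) * ge q A (n + 1) =
    ∑ i ∈ Finset.range (n + 1), (-1) ^ i * br q A i * ge q A (n - i) := by
  have h := congrArg (aeval (R := ℝ) fun k => br q A k) (ee_succ (K := ℝ) n)
  rw [map_smul, smul_eq_mul, map_sum] at h
  push_cast at h
  rw [ge]
  refine h.trans (Finset.sum_congr rfl fun i _ => ?_)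
  rw [map_mul, map_mul, map_pow, map_neg, map_one, aeval_X, ge]

theorem ge_zero (q : ℝ) (A : ℕ) : ge q A 0 = 1 := by
  rw [ge, ee, map_one]

/-- the sequence `e_r + a e_(r-1)` -/
private def fseq (e : ℕ → ℝ) (a : ℝ) : ℕ → ℝ
  | 0 => e 0
  | r + 1 => e (r + 1) + a * e r

private theorem fseq_rec (e p : ℕ → ℝ) (a : ℝ)
    (h : ∀ n : ℕ, ((n : ℝ) + 1) * e (n + 1) = ∑ i ∈ Finset.range (n + 1), (-1) ^ i * p i * e (n - i))
    (n : ℕ) : ((n : ℝ) + 1) * fseq e a (n + 1) =
      ∑ i ∈ Finset.range (n + 1), (-1) ^ i * (p i + a ^ (i + 1)) * fseq e a (n - i) := by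
  set e' : ℕ → ℝ := fun r => if r = 0 then 0 else e (r - 1) with he'
  have hf : ∀ r, fseq e a r = e r + a * e' r := by
    intro r
    rcases r with _ | r
    · simp [fseq, he']
    · simp [fseq, he']
  have hsh : ∀ c : ℕ → ℝ, ∑ i ∈ Finset.range (n + 1), c i * e' (n - i) =
      ∑ i ∈ Finset.range n, c i * e (n - 1 - i) := by
    intro c
    rw [Finset.sum_range_succ, Nat.sub_self]
    have : e' 0 = 0 := by simp [he']
    rw [this, mul_zero, add_zero]
    refine Finset.sum_congr rfl fun i hi => ?_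
    rw [Finset.mem_range] at hi
    have h1 : n - i ≠ 0 := by omega
    have h2 : n - i - 1 = n - 1 - i := by omega
    simp only [he']
    rw [if_neg h1, h2]
  have e1 : ∑ i ∈ Finset.range (n + 1), (-1) ^ i * (p i + a ^ (i + 1)) * fseq e a (n - i) =
      ∑ i ∈ Finset.range (n + 1), (-1) ^ i * p i * e (n - i) +
      a * ∑ i ∈ Finset.range (n + 1), ((-1) ^ i * p i) * e' (n - i) +
      ∑ i ∈ Finset.range (n + 1), (-1) ^ i * a ^ (i + 1) * e (n - i) +
      ∑ i ∈ Finset.range (n + 1), ((-1) ^ i * a ^ (i + 2)) * e' (n - i) := by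
    rw [Finset.mul_sum, ← Finset.sum_add_distrib, ← Finset.sum_add_distrib, ← Finset.sum_add_distrib]
    refine Finset.sum_congr rfl fun i _ => ?_
    rw [hf]
    ring
  have e2 : ∑ i ∈ Finset.range n, ((-1) ^ i * p i) * e (n - 1 - i) = (n : ℝ) * e n := by
    rcases n with _ | n
    · simp
    · have := h n
      push_cast
      rw [this]
  have e3 : ∑ i ∈ Finset.range (n + 1), (-1) ^ i * a ^ (i + 1) * e (n - i) =
      a * e n - ∑ i ∈ Finset.range n, ((-1) ^ i * a ^ (i + 2)) * e (n - 1 - i) := by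
    rw [Finset.sum_range_succ']
    simp only [pow_zero, zero_add, pow_one, one_mul, Nat.sub_zero]
    rw [add_comm, sub_eq_add_neg, ← Finset.sum_neg_distrib]
    congr 1
    refine Finset.sum_congr rfl fun i _ => ?_
    have : n - (i + 1) = n - 1 - i := by omega
    rw [this]
    ring
  rw [e1, hsh, hsh, e2, e3, ← h n]
  simp only [fseq]
  ring

theorem ge_succ (q : ℝ) (A r : ℕ) : ge q (A + 1) (r + 1) = ge q A (r + 1) + q ^ A * ge q A r := by
  have key : ∀ n, ge q (A + 1) n = fseq (ge q A) (q ^ A) n := by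
    intro n
    induction n using Nat.strong_induction_on with
    | _ n ih =>
    rcases n with _ | n
    · rw [ge_zero, fseq, ge_zero]
    · have h1 := gerec q (A + 1) n
      have h2 := fseq_rec (ge q A) (br q A) (q ^ A) (gerec q A) n
      have h3 : ((n : ℝ) + 1) ≠ 0 := by positivity
      apply mul_left_cancel₀ h3
      rw [h1, h2]
      refine Finset.sum_congr rfl fun i _ => ?_
      rw [ih (n - i) (by omega)]
      congr 2
      rw [br, Finset.sum_range_succ, br, pow_mul]
  exact key (r + 1)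

theorem ge_large (q : ℝ) (A r : ℕ) (hr : A < r) : ge q A r = 0 := by
  induction A generalizing r with
  | zero =>
    obtain ⟨n, rfl⟩ := Nat.exists_eq_succ_of_ne_zero (by omega : r ≠ 0)
    have h := gerec q 0 n
    have h3 : ((n : ℝ) + 1) ≠ 0 := by positivity
    have h4 : ∑ i ∈ Finset.range (n + 1), (-1) ^ i * br q 0 i * ge q 0 (n - i) = 0 :=
      Finset.sum_eq_zero fun i _ => by rw [br, Finset.sum_range_zero, mul_zero, zero_mul]
    rw [h4] at h
    exact (mul_eq_zero.1 h).resolve_left h3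
  | succ A ih =>
    obtain ⟨n, rfl⟩ := Nat.exists_eq_succ_of_ne_zero (by omega : r ≠ 0)
    rw [Nat.succ_eq_add_one, ge_succ, ih (n + 1) (by omega), ih n (by omega), mul_zero, add_zero]

private theorem qn_pos {q : ℝ} (h0 : 0 < q) (u : ℕ) : 0 < qn q (u + 1) := by
  rw [qn, Finset.sum_range_succ']
  have : 0 ≤ ∑ i ∈ Finset.range u, q ^ (i + 1) := Finset.sum_nonneg fun i _ => by positivity
  rw [pow_zero]
  linarith

private theorem qf_pos {q : ℝ} (h0 : 0 < q) (u : ℕ) : 0 < qf q u :=
  Finset.prod_pos fun i _ => qn_pos h0 i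

private theorem qf_succ (q : ℝ) (u : ℕ) : qf q (u + 1) = qf q u * qn q (u + 1) := by
  rw [qf, Finset.prod_range_succ, qf]

private theorem qn_add (q : ℝ) (a b : ℕ) : qn q (a + b) = qn q a + q ^ a * qn q b := by
  rw [qn, Finset.sum_range_add, qn, qn, Finset.mul_sum]
  congr 1
  exact Finset.sum_congr rfl fun i _ => by rw [pow_add]

private theorem tri (s : ℕ) : (s + 1) * (s + 1 - 1) / 2 = s * (s - 1) / 2 + s := by
  rcases s with _ | s
  · rfl
  · have h1 : (s + 1 + 1) * (s + 1 + 1 - 1) = (s + 1) * (s + 1 - 1) + 2 * (s + 1) := by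
      rw [Nat.add_sub_cancel, Nat.add_sub_cancel]
      ring
    rw [h1, Nat.add_mul_div_left _ _ (by norm_num)]

theorem ge_eq {q : ℝ} (h0 : 0 < q) (A r : ℕ) (hr : r ≤ A) :
    ge q A r = q ^ (r * (r - 1) / 2) * (qf q A / (qf q r * qf q (A - r))) := by
  induction A generalizing r with
  | zero =>
    have : r = 0 := by omega
    subst this
    rw [ge_zero]
    simp [qf]
  | succ A ih =>
    rcases r with _ | s
    · rw [ge_zero]
      have h1 := (qf_pos h0 (A + 1)).ne'
      have h2 : qf q 0 = 1 := by simp [qf]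
      rw [Nat.sub_zero, h2, one_mul, div_self h1]
      simp
    · rw [ge_succ, tri]
      have hA := (qf_pos h0 A).ne'
      have hs := (qf_pos h0 s).ne'
      have hs1 := (qn_pos h0 s).ne'
      have hA1 := (qn_pos h0 A).ne'
      rcases Nat.lt_or_ge s A with hlt | hge
      · obtain ⟨b, rfl⟩ : ∃ b, A = s + 1 + b := ⟨A - (s + 1), by omega⟩
        rw [ih (s + 1) (by omega), ih s (by omega), tri]
        have e1 : s + 1 + b - (s + 1) = b := by omega
        have e2 : s + 1 + b - s = b + 1 := by omega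
        have e3 : s + 1 + b + 1 - (s + 1) = b + 1 := by omega
        rw [e1, e2, e3, qf_succ q (s + 1 + b), qf_succ q s, qf_succ q b]
        have hb := (qf_pos h0 b).ne'
        have hb1 := (qn_pos h0 b).ne'
        have e4 : qn q (s + 1 + b + 1) = qn q (b + 1) + q ^ (b + 1) * qn q (s + 1) := by
          rw [← qn_add]
          congr 1
          omega
        rw [e4, pow_add, pow_add q (s + 1) b, pow_add q s 1]
        field_simp
        ring
      · have hsA : s = A := by omega
        subst hsA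
        rw [ge_large q s (s + 1) (by omega), ih s le_rfl, Nat.sub_self, Nat.sub_self]
        have h2 : qf q 0 = 1 := by simp [qf]
        have h3 := (qf_pos h0 (s + 1)).ne'
        rw [h2, mul_one, mul_one, div_self hs, div_self h3, pow_add]
        ring

end EllHall
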