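import Pool.Agent.Lib.MP_630b78_co.QO.Comm
import Pool.Agent.Lib.MP_630b78_co.QO.Cst

/-!
Module Rec: on the curve `q t = 1` the operators `T_(m,n)` are multiples of `W_(m,n)`.
-/

namespace EllHall

open MvPolynomial

private theorem rec_bez (a b : ℕ) (ha : 1 ≤ a) (hb : 1 ≤ b) (hab : Nat.Coprime a b) :
    ∃ k l : ℕ, k < a ∧ 1 ≤ l ∧ l ≤ b ∧ a * l = b * k + 1 := by
  rcases Nat.lt_or_ge 1 b with h | h
  · obtain ⟨l, hl, hl'⟩ := Nat.exists_mul_mod_eq_one_of_coprime hab h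
    have hl0 : 1 ≤ l := by
      rcases Nat.eq_zero_or_pos l with h0 | h0
      · subst h0
        simp at hl'
      · exact h0
    have h2 := Nat.div_add_mod (a * l) b
    rw [hl'] at h2
    refine ⟨a * l / b, l, ?_, hl0, hl.le, h2.symm⟩
    by_contra hc
    push Not at hc
    have h3 : b * a ≤ b * (a * l / b) := Nat.mul_le_mul_left b hc
    have h4 : a * l ≤ a * b := Nat.mul_le_mul_left a hl.le
    have h5 : a * b = b * a := Nat.mul_comm a b
    omega
  · have h1 : b = 1 := le_antisymm h hb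
    subst h1
    exact ⟨a - 1, 1, by omega, le_refl 1, le_refl 1, by omega⟩

private theorem rec_ne {q : ℝ} (h0 : 0 < q) (h1 : q ≠ 1) (n : ℕ) (hn : 1 ≤ n) : 1 - q ^ n ≠ 0 := by
  intro h
  have h2 : q ^ n = 1 := by linarith
  rw [pow_eq_one_iff_of_nonneg h0.le (by omega)] at h2
  exact h1 h2

private theorem rec_M {q : ℝ} (h1 : q ≠ 1) : (1 - q) * (1 - q⁻¹) ≠ 0 := by
  apply mul_ne_zero
  · intro h
    exact h1 (by linarith)
  · intro h
    apply h1
    have h2 : q⁻¹ = 1 := by linarith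
    exact inv_eq_one.mp h2

theorem rec_T {q : ℝ} (h0 : 0 < q) (h1 : q ≠ 1) {T : ℕ → ℕ → Module.End ℝ (MvPolynomial ℕ ℝ)} (hT : IsT q q⁻¹ T)
    (m n : ℕ) (hm : 1 ≤ m) (hn : 1 ≤ n ∨ (m = 1 ∧ n = 0)) : T m n = cc q m n • W q q⁻¹ m n := by
  induction hs : m + n using Nat.strong_induction_on generalizing m n with
  | _ s ih =>
  rcases hn with hn | ⟨rfl, rfl⟩
  swap
  · rw [hT.t10, W_D0]
    simp [cc, ex, qn]
  have hqt : q * q⁻¹ = 1 := mul_inv_cancel₀ h0.ne'
  obtain ⟨d, a, b, hd, hab, rfl, rfl⟩ : ∃ d a b : ℕ, 1 ≤ d ∧ Nat.Coprime a b ∧ m = a * d ∧ n = b * d := by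
    have hd : 0 < Nat.gcd m n := Nat.gcd_pos_of_pos_left n hm
    obtain ⟨a, b, hab, ha, hb⟩ := Nat.exists_coprime m n
    exact ⟨Nat.gcd m n, a, b, hd, hab, ha, hb⟩
  have ha : 1 ≤ a := by
    rcases Nat.eq_zero_or_pos a with h | h
    · subst h
      simp at hm
    · exact h
  have hb : 1 ≤ b := by
    rcases Nat.eq_zero_or_pos b with h | h
    · subst h
      simp at hn
    · exact h
  obtain ⟨k, l, hk, hl, hlb, hkl⟩ := rec_bez a b ha hb hab
  have had : a ≤ a * d := Nat.le_mul_of_pos_right a hd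
  have hbd : b ≤ b * d := Nat.le_mul_of_pos_right b hd
  obtain ⟨u, hu⟩ : ∃ u, a * d = k + u := ⟨a * d - k, by omega⟩
  obtain ⟨v, hv⟩ : ∃ v, b * d = l + v := ⟨b * d - l, by omega⟩
  have hu1 : 1 ≤ u := by omega
  have hul : u * l = k * v + d := by
    have e1 : (k + u) * l = (b * k + 1) * d := by rw [← hu, ← hkl]; ring
    have e2 : b * d * k = (l + v) * k := by rw [hv]
    nlinarith
  have hbu : b * u = a * v + 1 := by
    have e1 : b * (k + u) = a * (l + v) := by rw [← hu, ← hv]; ring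
    nlinarith
  have huv : Nat.gcd u v = 1 := by
    have h2 : Nat.gcd u v ∣ a * v + 1 := by
      rw [← hbu]
      exact (Nat.gcd_dvd_left u v).mul_left b
    have h3 : Nat.gcd u v ∣ a * v := (Nat.gcd_dvd_right u v).mul_left a
    exact Nat.dvd_one.mp ((Nat.dvd_add_right h3).mp h2)
  have hv1 : 1 ≤ v ∨ (u = 1 ∧ v = 0) := by
    rcases Nat.eq_zero_or_pos v with h | h
    · subst h
      right
      refine ⟨?_, rfl⟩
      rw [Nat.mul_zero, Nat.zero_add] at hbu
      exact Nat.eq_one_of_mul_eq_one_left hbu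
    · exact Or.inl h
  have hgd : Nat.gcd (k + u) (l + v) = d := by
    rw [← hu, ← hv, Nat.gcd_mul_right, hab, Nat.one_mul]
  have hstep := hT.step a b k l d ha hb hd hk.le hlb hkl
  have e1 : a * d - k = u := by omega
  have e2 : b * d - l = v := by omega
  rw [e1, e2, hu, hv] at hstep
  rw [hu, hv]
  have ihu : T u v = cc q u v • W q q⁻¹ u v := ih (u + v) (by omega) u v hu1 hv1 rfl
  have hM := rec_M h1
  apply smul_right_injective _ hM
  show ((1 - q) * (1 - q⁻¹)) • T (k + u) (l + v) = ((1 - q) * (1 - q⁻¹)) • cc q (k + u) (l + v) • W q q⁻¹ (k + u) (l + v)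
  rw [hstep, smul_smul]
  rcases Nat.eq_zero_or_pos k with hk0 | hk0
  · subst hk0
    rw [Nat.mul_zero, Nat.zero_add] at hkl
    have hl1 : l = 1 := Nat.eq_one_of_mul_eq_one_left hkl
    have ha1 : a = 1 := Nat.eq_one_of_mul_eq_one_right hkl
    subst hl1
    subst ha1
    have hud : u = d := by omega
    have hc := cst_b h0 h1 u v hu1 hv1 huv (by
      rw [← hud, Nat.zero_add, Nat.add_comm 1 v] at hgd
      exact hgd)
    rw [hT.t01, ihu, Nat.zero_add, Nat.add_comm 1 v, hc]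
    apply LinearMap.ext
    intro g
    have hx := W_X_mul q q⁻¹ u v 0 g
    simp only [Nat.add_zero, Nat.zero_add, Nat.mul_one, pow_one] at hx
    simp only [LinearMap.sub_apply, Module.End.mul_apply, LinearMap.smul_apply, LinearMap.mulLeft_apply]
    rw [hx, smul_add, mul_smul_comm, smul_smul, neg_smul]
    abel
  · have ihk : T k l = cc q k l • W q q⁻¹ k l := ih (k + l) (by omega) k l hk0 (Or.inl hl) rfl
    have hgkl : Nat.gcd k l = 1 := by
      have h2 : Nat.gcd k l ∣ b * k + 1 := by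
        rw [← hkl]
        exact (Nat.gcd_dvd_right k l).mul_left a
      have h3 : Nat.gcd k l ∣ b * k := (Nat.gcd_dvd_left k l).mul_left b
      exact Nat.dvd_one.mp ((Nat.dvd_add_right h3).mp h2)
    have hc := cst_a h0 h1 k l u v d hk0 hl hu1 hv1 hgkl huv hgd hul hd
    rw [ihk, ihu, hc]
    apply LinearMap.ext
    intro g
    have hw := W_comm hqt k u (rec_ne h0 h1 (k + u) (by omega)) l v g
    simp only [LinearMap.sub_apply, Module.End.mul_apply, LinearMap.smul_apply, map_smul]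
    rw [smul_smul, smul_smul, mul_comm (cc q u v) (cc q k l), ← smul_sub, hw, smul_smul]

theorem T_one {q : ℝ} (h0 : 0 < q) (h1 : q ≠ 1) {T : ℕ → ℕ → Module.End ℝ (MvPolynomial ℕ ℝ)} (hT : IsT q q⁻¹ T)
    (m n : ℕ) (hm : 1 ≤ m) (hn : 1 ≤ n) :
    T m n 1 = ((Real.sqrt q ^ ex m n)⁻¹ * (qn q (Nat.gcd m n) / qn q m)) • eu q m n := by
  rw [rec_T h0 h1 hT m n hm (Or.inl hn), LinearMap.smul_apply, W_one]
  have h2 : (-1 : ℝ) ^ n * (-1) ^ n = 1 := by
    rw [← mul_pow]
    norm_num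
  have h3 : ((-1) ^ n * eu q m n : MvPolynomial ℕ ℝ) = ((-1 : ℝ) ^ n) • eu q m n := by
    rw [MvPolynomial.smul_eq_C_mul]
    simp
  rw [h3, smul_smul]
  congr 1
  unfold cc
  linear_combination ((Real.sqrt q ^ ex m n)⁻¹ * (qn q (Nat.gcd m n) / qn q m)) * h2

end EllHall
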