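import Pool.Agent.Lib.MP_630b78_co.QO.Bar
import Pool.Agent.Lib.MP_630b78_co.QO.Rec
import Pool.Agent.Lib.MP_630b78_co.QO.Cmp

/-!
# The transpose comparison on the curve `q t = 1`
-/

namespace EllHall

open MvPolynomial

/-- the seed `q_d` -/
def seed (d : ℕ) (μ : Nat.Partition d) : ℝ := if μ.parts = {d} then 1 else 0

private theorem ff_seed {Q : ℕ → ℕ → Module.End ℝ (MvPolynomial ℕ ℝ)} (a b d : ℕ) (hd : 1 ≤ d) :
    ff Q (fun n => (-1) ^ (n + 1)) (seed d) a b = ((-1 : ℝ) ^ (b * d + 1) • Q (a * d) (b * d)) 1 := by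
  have hex : ∃ μ : Nat.Partition d, μ.parts = {d} :=
    ⟨⟨{d}, fun {i} hi => by rw [Multiset.mem_singleton.1 hi]; exact hd, Multiset.sum_singleton d⟩, rfl⟩
  obtain ⟨μ, hμ⟩ := hex
  unfold ff
  rw [Finset.sum_eq_single μ]
  · rw [seed, if_pos hμ, one_smul, opProd, hμ, Multiset.sort_singleton]
    simp
  · intro ν _ hν
    rw [seed, if_neg fun h => hν (Nat.Partition.ext (h.trans hμ.symm)), zero_smul]
  · intro h
    exact absurd (Finset.mem_univ μ) h

private theorem ex_comm (m n : ℕ) : ex m n = ex n m := by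
  unfold ex
  rw [mul_comm, Nat.gcd_comm]

private theorem qn_pos {q : ℝ} (h0 : 0 < q) {m : ℕ} (hm : 1 ≤ m) : 0 < qn q m := by
  unfold qn
  exact Finset.sum_pos (fun i _ => pow_pos h0 i) ⟨0, Finset.mem_range.2 hm⟩

/-- The value of `f^(a,b)` for `f = q_d`. -/
theorem ff_curve {q : ℝ} (h0 : 0 < q) (h1 : q ≠ 1) {Q : ℕ → ℕ → Module.End ℝ (MvPolynomial ℕ ℝ)} (hQ : IsHall q q⁻¹ Q)
    (a b d : ℕ) (ha : 1 ≤ a) (hb : 1 ≤ b) (hd : 1 ≤ d) (hc : Nat.Coprime a b) :
    ff Q (fun n => (-1) ^ (n + 1)) (seed d) a b =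
      ((Real.sqrt q ^ ex (a * d) (b * d))⁻¹ * qn q d / qn q (a * d)) • eu q (a * d) (b * d) := by
  have had : 1 ≤ a * d := Nat.one_le_iff_ne_zero.2 (Nat.mul_ne_zero (by omega) (by omega))
  have hbd : 1 ≤ b * d := Nat.one_le_iff_ne_zero.2 (Nat.mul_ne_zero (by omega) (by omega))
  rw [ff_seed a b d hd]
  have h := T_one h0 h1 (isT_of_isHall hQ) (a * d) (b * d) had hbd
  rw [h, Nat.gcd_mul_right, hc.gcd_eq_one, one_mul, mul_div_assoc]

private theorem cmp_aux {q : ℝ} (h0 : 0 < q) (h1 : q ≠ 1) {ρ : Multiset ℕ} (hρ : ∀ x ∈ ρ, 1 ≤ x) (A B : ℕ) (hA : 1 ≤ A)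
    (hAB : A ≤ B) :
    barCoeff (eu q B A) A ρ / qn q B ≤ barCoeff (eu q A B) B ρ / qn q A ∧
      (Multiset.card ρ ≤ 1 → barCoeff (eu q B A) A ρ / qn q B = barCoeff (eu q A B) B ρ / qn q A) := by
  rw [barCoeff_eu hρ, barCoeff_eu hρ]
  have hp := rowOf_pos hρ
  have hk := rowOf_sum ρ
  have hν := rowOf_antitone ρ
  by_cases h : ρ.sum + Multiset.card ρ ≤ A
  · rw [if_pos h, if_pos (h.trans hAB)]
    refine ⟨SD_le h0 h1 _ _ _ hν hp hk A B hA h hAB, fun h2 => SD_row h0 h1 _ _ _ hν hp h2 hk A B hA h hAB⟩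
  · rw [if_neg h, zero_div]
    refine ⟨?_, fun hcard => ?_⟩
    · split_ifs with h2
      · refine div_nonneg ?_ (qn_pos h0 hA).le
        exact SD_nonneg h0 h1 A (B - ρ.sum) _ _ hν hp (by omega) hA
      · rw [zero_div]
    · split_ifs with h2
      · have hc1 : Multiset.card ρ = 1 := by
          rcases Nat.eq_zero_or_pos (Multiset.card ρ) with h3 | h3
          · rw [Multiset.card_eq_zero] at h3
            subst h3
            exact absurd (by simp) h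
          · omega
        rw [hc1, Finset.sum_range_one] at hk
        rw [SD_zero A (B - ρ.sum) _ (by omega) (by omega), zero_div]
      · rw [zero_div]

/-- The comparison on the curve `q t = 1`. -/
theorem curve_le {q : ℝ} (h0 : 0 < q) (h1 : q ≠ 1) {Q : ℕ → ℕ → Module.End ℝ (MvPolynomial ℕ ℝ)} (hQ : IsHall q q⁻¹ Q)
    (a b d : ℕ) (ha : 1 ≤ a) (hab : a ≤ b) (hc : Nat.Coprime a b) (hd : 1 ≤ d) (ρ : Multiset ℕ) :
    barCoeff (ff Q (fun n => (-1) ^ (n + 1)) (seed d) b a) (a * d) ρ ≤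
      barCoeff (ff Q (fun n => (-1) ^ (n + 1)) (seed d) a b) (b * d) ρ := by
  have had : 1 ≤ a * d := Nat.one_le_iff_ne_zero.2 (Nat.mul_ne_zero (by omega) (by omega))
  by_cases hρ : ∀ x ∈ ρ, 1 ≤ x
  · rw [ff_curve h0 h1 hQ a b d ha (by omega) hd hc, ff_curve h0 h1 hQ b a d (by omega) ha hd hc.symm,
      barCoeff_smul, barCoeff_smul, ex_comm (b * d) (a * d)]
    have h := (cmp_aux h0 h1 hρ (a * d) (b * d) had (Nat.mul_le_mul_right d hab)).1
    have hpos : 0 ≤ (Real.sqrt q ^ ex (a * d) (b * d))⁻¹ * qn q d :=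
      mul_nonneg (inv_nonneg.2 (pow_nonneg (Real.sqrt_nonneg q) _)) (qn_pos h0 hd).le
    have h2 := mul_le_mul_of_nonneg_left h hpos
    calc _ = (Real.sqrt q ^ ex (a * d) (b * d))⁻¹ * qn q d * (barCoeff (eu q (b * d) (a * d)) (a * d) ρ / qn q (b * d)) := by ring
      _ ≤ _ := h2
      _ = _ := by ring
  · rw [barCoeff_zero_part hρ, barCoeff_zero_part hρ]

/-- Equality for the empty partition and the partitions with one row. -/
theorem curve_row {q : ℝ} (h0 : 0 < q) (h1 : q ≠ 1) {Q : ℕ → ℕ → Module.End ℝ (MvPolynomial ℕ ℝ)} (hQ : IsHall q q⁻¹ Q)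
    (a b d : ℕ) (ha : 1 ≤ a) (hab : a ≤ b) (hc : Nat.Coprime a b) (hd : 1 ≤ d) (j : ℕ) :
    barCoeff (ff Q (fun n => (-1) ^ (n + 1)) (seed d) b a) (a * d) (if j = 0 then 0 else {j}) =
      barCoeff (ff Q (fun n => (-1) ^ (n + 1)) (seed d) a b) (b * d) (if j = 0 then 0 else {j}) := by
  have had : 1 ≤ a * d := Nat.one_le_iff_ne_zero.2 (Nat.mul_ne_zero (by omega) (by omega))
  have hρ : ∀ x ∈ (if j = 0 then 0 else {j} : Multiset ℕ), 1 ≤ x := by
    intro x hx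
    split_ifs at hx with h
    · exact absurd hx (Multiset.notMem_zero x)
    · rw [Multiset.mem_singleton] at hx
      omega
  have hcard : Multiset.card (if j = 0 then 0 else {j} : Multiset ℕ) ≤ 1 := by
    split_ifs with h
    · simp
    · simp
  rw [ff_curve h0 h1 hQ a b d ha (by omega) hd hc, ff_curve h0 h1 hQ b a d (by omega) ha hd hc.symm,
    barCoeff_smul, barCoeff_smul, ex_comm (b * d) (a * d)]
  have h := (cmp_aux h0 h1 hρ (a * d) (b * d) had (Nat.mul_le_mul_right d hab)).2 hcard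
  calc _ = (Real.sqrt q ^ ex (a * d) (b * d))⁻¹ * qn q d * (barCoeff (eu q (b * d) (a * d)) (a * d) (if j = 0 then 0 else {j}) / qn q (b * d)) := by ring
    _ = (Real.sqrt q ^ ex (a * d) (b * d))⁻¹ * qn q d * (barCoeff (eu q (a * d) (b * d)) (b * d) (if j = 0 then 0 else {j}) / qn q (a * d)) := by rw [h]
    _ = _ := by ring

theorem curve_exists {q : ℝ} (h0 : 0 < q) (h1 : q ≠ 1) : ∃ Q : ℕ → ℕ → Module.End ℝ (MvPolynomial ℕ ℝ), IsHall q q⁻¹ Q := by
  refine exists_hall (mul_ne_zero (sub_ne_zero.2 h1.symm) (sub_ne_zero.2 fun h => h1 ?_))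
  have := h0.ne'
  field_simp at h
  linarith

end EllHall
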