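import Pool.Agent.Lib.MP_630b78_co.QO.Defs

/-!
Module Sc: the Schur coefficients of `e_n[X [A]]` as determinants.
-/

set_option linter.unusedSectionVars false

namespace EllHall

open MvPolynomial

variable {K : Type} [Field K] [CharZero K]

private theorem Sc_hall_subset (g f : MvPolynomial ℕ K) (s : Finset (ℕ →₀ ℕ)) (hs : g.support ⊆ s) :
    hall g f = ∑ m ∈ s, g.coeff m * f.coeff m * (zz m : K) := by
  unfold hall
  refine Finset.sum_subset hs fun m _ hm => ?_
  rw [notMem_support_iff.1 hm, zero_mul, zero_mul]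

private theorem Sc_hall_comm (g f : MvPolynomial ℕ K) : hall g f = hall f g := by
  classical
  rw [Sc_hall_subset g f (g.support ∪ f.support) Finset.subset_union_left,
    Sc_hall_subset f g (g.support ∪ f.support) Finset.subset_union_right]
  refine Finset.sum_congr rfl fun m _ => ?_
  ring

private theorem Sc_cc_ph (q : K) (A : ℕ) (g : MvPolynomial ℕ K) : constantCoeff (ph q A g) = constantCoeff g := by
  have h : (constantCoeff (R := K) (σ := ℕ)).comp (ph q A).toRingHom = constantCoeff := by
    apply MvPolynomial.ringHom_ext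
    · intro a
      simp [ph]
    · intro k
      simp [ph]
  exact congrFun (congrArg DFunLike.coe h) g

private theorem Sc_pderiv_ph (q : K) (A k : ℕ) (g : MvPolynomial ℕ K) :
    pderiv k (ph q A g) = C (br q A k) * ph q A (pderiv k g) := by
  induction g using MvPolynomial.induction_on with
  | C a => simp [ph]
  | add p r hp hr => rw [map_add, map_add, hp, hr, map_add, map_add, mul_add]
  | mul_X p i hp =>
    rw [map_mul, Derivation.leibniz, hp, Derivation.leibniz, map_add]
    have h1 : ph q A (X i : MvPolynomial ℕ K) = C (br q A i) * X i := by simp [ph]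
    rw [h1]
    simp only [smul_eq_mul, map_mul]
    rw [h1, Derivation.leibniz, pderiv_X, pderiv_C]
    simp only [smul_eq_mul, mul_zero, add_zero]
    by_cases hik : i = k
    · subst hik
      simp only [Pi.single_eq_same, map_one, mul_one]
      ring
    · have h2 : (Pi.single k (1 : MvPolynomial ℕ K) : ℕ → MvPolynomial ℕ K) i = 0 := by
        rw [Pi.single_apply, if_neg hik]
      simp only [h2, map_zero, mul_zero]
      ring

/-- the adjoint of the multiplication by `ee` -/
private noncomputable def scPsi (q : K) (A : ℕ) : MvPolynomial ℕ K →ₐ[K] Polynomial K :=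
  aeval fun k => Polynomial.C ((-1) ^ k * br q A k) * Polynomial.X ^ (k + 1)

private theorem Sc_psi_X (q : K) (A k : ℕ) :
    scPsi q A (X k) = Polynomial.C ((-1) ^ k * br q A k) * Polynomial.X ^ (k + 1) := by
  simp [scPsi]

private theorem Sc_psi_C (q : K) (A : ℕ) (a : K) : scPsi q A (C a) = Polynomial.C a := by
  simp [scPsi]

private theorem Sc_hall_X (q : K) (A n k : ℕ) (f : MvPolynomial ℕ K) :
    hall (eu q A n) (X k * f) = if k + 1 ≤ n then (-1) ^ k * br q A k * hall (eu q A (n - (k + 1))) f else 0 := by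
  rw [Sc_hall_comm, hall_X_mul]
  unfold eu
  rw [Sc_pderiv_ph, ← mul_smul_comm, ← map_smul, pderiv_ee]
  split_ifs with h
  · rw [map_mul, map_pow, map_neg, map_one]
    have h1 : C (br q A k) * ((-1) ^ k * ph q A (ee K (n - (k + 1)))) =
        ((-1) ^ k * br q A k) • ph q A (ee K (n - (k + 1))) := by
      rw [MvPolynomial.smul_eq_C_mul, map_mul, map_pow, map_neg, map_one]
      ring
    rw [h1, hall_smul_right, Sc_hall_comm]
  · rw [map_zero, mul_zero]
    have h2 := hall_smul_right (0 : K) f (0 : MvPolynomial ℕ K)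
    rwa [zero_smul, zero_mul] at h2

private theorem Sc_hall_eq (q : K) (A : ℕ) (f : MvPolynomial ℕ K) :
    ∀ n : ℕ, hall (eu q A n) f = (scPsi q A f).coeff n := by
  induction f using MvPolynomial.induction_on with
  | C a =>
    intro n
    have h1 : (C a : MvPolynomial ℕ K) = a • (1 : MvPolynomial ℕ K) := by
      rw [MvPolynomial.smul_eq_C_mul, mul_one]
    rw [Sc_psi_C, Polynomial.coeff_C, h1, hall_smul_right, Sc_hall_comm, hall_one]
    unfold eu
    rw [Sc_cc_ph, constantCoeff_ee]
    split_ifs <;> simp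
  | add p r hp hr =>
    intro n
    rw [hall_add_right, hp, hr, map_add, Polynomial.coeff_add]
  | mul_X p i hp =>
    intro n
    have h0 : Polynomial.C ((-1) ^ i * br q A i) * Polynomial.X ^ (i + 1) * scPsi q A p =
        Polynomial.C ((-1) ^ i * br q A i) * (Polynomial.X ^ (i + 1) * scPsi q A p) := mul_assoc _ _ _
    rw [mul_comm p, Sc_hall_X, map_mul, Sc_psi_X, h0, Polynomial.coeff_C_mul, Polynomial.coeff_X_pow_mul']
    split_ifs with h
    · rw [hp]
    · rw [mul_zero]

private theorem Sc_psi_hh (q : K) (A r : ℕ) :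
    scPsi q A (hh K r) = Polynomial.C (ge q A r) * Polynomial.X ^ r := by
  induction r using Nat.strong_induction_on with
  | _ r ih =>
    rcases r with _ | r
    · rw [hh, map_one]
      unfold ge
      rw [ee, map_one, map_one, pow_zero, mul_one]
    · have hc : ((r + 1 : ℕ) : K) ≠ 0 := Nat.cast_ne_zero.mpr (Nat.succ_ne_zero r)
      have h1 := congrArg (scPsi q A) (hh_succ (K := K) r)
      have h2 := congrArg (aeval (R := K) fun k => br q A k) (ee_succ (K := K) r)
      rw [map_smul, map_sum] at h1 h2
      have h3 : ∑ i ∈ Finset.range (r + 1), scPsi q A (X i * hh K (r - i)) =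
          Polynomial.C (∑ i ∈ Finset.range (r + 1), aeval (R := K) (fun k => br q A k) ((-1) ^ i * X i * ee K (r - i))) *
            Polynomial.X ^ (r + 1) := by
        rw [map_sum, Finset.sum_mul]
        refine Finset.sum_congr rfl fun i hi => ?_
        have hi' := Finset.mem_range.mp hi
        rw [map_mul, ih (r - i) (by omega), Sc_psi_X]
        have h4 : (Polynomial.X : Polynomial K) ^ (r + 1) = Polynomial.X ^ (i + 1) * Polynomial.X ^ (r - i) := by
          rw [← pow_add]
          congr 1
          omega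
        have h5 : aeval (R := K) (fun k => br q A k) ((-1) ^ i * X i * ee K (r - i)) =
            (-1) ^ i * br q A i * ge q A (r - i) := by
          unfold ge
          simp
        rw [h5, h4]
        simp only [map_mul]
        ring
      rw [h3, ← h2] at h1
      have h5 : ((r + 1 : ℕ) : K) • scPsi q A (hh K (r + 1)) =
          ((r + 1 : ℕ) : K) • (Polynomial.C (ge q A (r + 1)) * Polynomial.X ^ (r + 1)) := by
        rw [h1, smul_eq_mul, Polynomial.smul_eq_C_mul, map_mul]
        unfold ge
        ring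
      exact smul_right_injective (Polynomial K) hc h5

private theorem Sc_psi_hz (q : K) (A : ℕ) (z : ℤ) :
    scPsi q A (hz K z) = Polynomial.C (gz q A z) * Polynomial.X ^ z.toNat := by
  unfold hz gz
  split_ifs
  · exact Sc_psi_hh q A _
  · rw [map_zero, map_zero, zero_mul]

private theorem Sc_prod (q : K) (A n m : ℕ) (z : Fin m → ℤ) (hz : ∑ i, z i = n) :
    (∏ i, (Polynomial.C (gz q A (z i)) * Polynomial.X ^ (z i).toNat)).coeff n = ∏ i, gz q A (z i) := by
  rw [Finset.prod_mul_distrib, ← map_prod, Polynomial.coeff_C_mul, Finset.prod_pow_eq_pow_sum,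
    Polynomial.coeff_X_pow]
  by_cases h : ∀ i, 0 ≤ z i
  · have h1 : n = ∑ i, (z i).toNat := by
      zify
      rw [← hz]
      refine Finset.sum_congr rfl fun i _ => ?_
      exact (Int.toNat_of_nonneg (h i)).symm
    rw [if_pos h1, mul_one]
  · push Not at h
    obtain ⟨i, hi⟩ := h
    have h2 : ∏ i, gz q A (z i) = 0 := by
      refine Finset.prod_eq_zero (Finset.mem_univ i) ?_
      unfold gz
      rw [if_neg (by omega)]
    rw [h2, zero_mul]

theorem sc_eu (q : K) (A n : ℕ) (μ : Nat.Partition n) :
    sc (eu q A n) μ.parts =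
      Matrix.det (Matrix.of fun i j : Fin (μ.parts.sort (· ≥ ·)).length =>
        gz q A (((μ.parts.sort (· ≥ ·)).get i : ℤ) - (i : ℤ) + (j : ℤ))) := by
  unfold sc
  rw [Sc_hall_eq]
  unfold schur
  have hsum : ∑ i : Fin (μ.parts.sort (· ≥ ·)).length, (μ.parts.sort (· ≥ ·)).get i = n := by
    have h1 : (μ.parts.sort (· ≥ ·)).sum = n := by
      have h2 := congrArg Multiset.sum (Multiset.sort_eq μ.parts (· ≥ ·))
      rw [Multiset.sum_coe, μ.parts_sum] at h2
      exact h2
    refine Eq.trans ?_ h1
    rw [← Fin.sum_univ_getElem]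
    rfl
  generalize μ.parts.sort (· ≥ ·) = l at *
  rw [AlgHom.map_det, Matrix.det_apply, Matrix.det_apply, Polynomial.finsetSum_coeff]
  refine Finset.sum_congr rfl fun σ _ => ?_
  have h4 := Sc_prod q A n l.length (fun i => ((l.get (σ i) : ℤ) - ((σ i : Fin l.length) : ℤ) + (i : ℤ))) ?_
  · rw [Units.smul_def, Units.smul_def, zsmul_eq_mul, zsmul_eq_mul, Polynomial.coeff_intCast_mul]
    congr 1
    simp only [Matrix.of_apply]
    rw [← h4]
    congr 1
    refine Finset.prod_congr rfl fun i _ => ?_
    exact Sc_psi_hz q A _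
  · rw [Finset.sum_add_distrib, Finset.sum_sub_distrib]
    have h5 : ∑ i, ((l.get (σ i) : ℕ) : ℤ) = ∑ i, ((l.get i : ℕ) : ℤ) :=
      Equiv.sum_comp σ fun i => ((l.get i : ℕ) : ℤ)
    have h6 : ∑ i, (((σ i : Fin l.length) : ℕ) : ℤ) = ∑ i : Fin l.length, ((i : ℕ) : ℤ) :=
      Equiv.sum_comp σ fun i => ((i : ℕ) : ℤ)
    rw [h5, h6, ← Nat.cast_sum, hsum]
    ring

end EllHall
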